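import Pool.Agent.H583R2.LH.PrNe

/-! Task FW: there are few hidden strings. -/

namespace Pool.Agent.H583R2.LH

open MeasureTheory Pool.Agent.NPC Pool.Agent.H628R3.RO
open Pool.Agent.H583R2.S2 (chr IsP)
open Pool.Agent.H673R2.OneTT (KA)

namespace FW

open Filter

/-- the strings of length `n` -/
def Ln (n : ℕ) : Finset (List Bool) := Finset.univ.image (fun v : Fin n → Bool => List.ofFn v)

theorem mem_Ln {n : ℕ} {y : List Bool} : y ∈ Ln n ↔ y.length = n := by
  unfold Ln
  simp only [Finset.mem_image, Finset.mem_univ, true_and]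
  constructor
  · rintro ⟨v, rfl⟩
    simp
  · intro h
    subst h
    exact ⟨y.get, List.ofFn_get y⟩

theorem card_Ln (n : ℕ) : (Ln n).card = 2 ^ n := by
  unfold Ln
  rw [Finset.card_image_of_injective _ List.ofFn_injective]
  simp

theorem hid_iff {n : ℕ} {y : List Bool} (hy : y.length = n) (A : Oracle) :
    y ∈ Hid A ↔ Hit n (0, y) A := by
  subst hy
  rfl

theorem prob_all (n : ℕ) (h : Finset (List Bool)) (hh : ∀ y ∈ h, y.length = n) :
    prob {A | ∀ y ∈ h, y ∈ Hid A} = (1 / 2) ^ (n * h.card) := by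
  classical
  have h1 := prob_plant (S := Set.univ) MeasurableSet.univ
    (allSpots n (h.image (fun y => ((0, y) : Cand))))
  rw [M2.card_allSpots, Finset.card_image_of_injective _ (fun a b hab => (Prod.ext_iff.1 hab).2)]
    at h1
  rw [Set.inter_univ, Set.preimage_univ] at h1
  have h2 : prob Set.univ = 1 := by
    unfold prob
    simp
  rw [h2, mul_one] at h1
  rw [← h1]
  congr 1
  ext A
  simp only [Set.mem_ofPred_eq]
  constructor
  · intro h3 x hx
    obtain ⟨κ, hκ, hx'⟩ := M2.mem_allSpots.1 hx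
    obtain ⟨y, hy, rfl⟩ := Finset.mem_image.1 hκ
    exact (M2.hit_iff.1 ((hid_iff (hh y hy) A).1 (h3 y hy))) x hx'
  · intro h3 y hy
    rw [hid_iff (hh y hy), M2.hit_iff]
    intro x hx
    exact h3 x (M2.mem_allSpots.2 ⟨(0, y), Finset.mem_image.2 ⟨y, hy, rfl⟩, hx⟩)

theorem hs_finite (n : ℕ) (A : Oracle) : {y : List Bool | y.length = n ∧ y ∈ Hid A}.Finite :=
  (Ln n).finite_toSet.subset fun y hy => by
    rw [Finset.mem_coe, mem_Ln]
    exact hy.1

/-- many hidden strings -/
def Many (n : ℕ) : Set Oracle := {A | n < {y : List Bool | y.length = n ∧ y ∈ Hid A}.ncard}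

theorem prob_many (n : ℕ) : prob (Many n) ≤ 1 / ((n + 1).factorial : ℝ) := by
  classical
  have h1 : Many n ⊆ ⋃ h ∈ (Ln n).powersetCard (n + 1), {A | ∀ y ∈ h, y ∈ Hid A} := by
    intro A hA
    have hA' : n + 1 ≤ (hs_finite n A).toFinset.card := by
      rw [← Set.ncard_eq_toFinset_card _ (hs_finite n A)]
      exact hA
    obtain ⟨h, hh, hc⟩ := Finset.exists_subset_card_eq hA'
    simp only [Set.mem_iUnion]
    refine ⟨h, ?_, ?_⟩
    · rw [Finset.mem_powersetCard]
      refine ⟨fun y hy => ?_, hc⟩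
      have := hh hy
      rw [Set.Finite.mem_toFinset] at this
      exact mem_Ln.2 this.1
    · intro y hy
      have := hh hy
      rw [Set.Finite.mem_toFinset] at this
      exact this.2
  have h2 : prob (Many n) ≤ ∑ h ∈ (Ln n).powersetCard (n + 1),
      prob {A | ∀ y ∈ h, y ∈ Hid A} :=
    (M2.prob_mono h1).trans (measureReal_biUnion_finset_le _ _)
  have h3 : ∑ h ∈ (Ln n).powersetCard (n + 1), prob {A | ∀ y ∈ h, y ∈ Hid A} =
      ((2 ^ n).choose (n + 1) : ℝ) * (1 / 2) ^ (n * (n + 1)) := by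
    rw [Finset.sum_congr rfl (g := fun _ => ((1 : ℝ) / 2) ^ (n * (n + 1)))]
    · rw [Finset.sum_const, Finset.card_powersetCard, card_Ln, nsmul_eq_mul]
    · intro h hh
      rw [Finset.mem_powersetCard] at hh
      rw [prob_all n h fun y hy => mem_Ln.1 (hh.1 hy), hh.2]
  rw [h3] at h2
  refine h2.trans ?_
  have h4 : ((2 ^ n).choose (n + 1) : ℝ) ≤ ((2 ^ n : ℕ) : ℝ) ^ (n + 1) / ((n + 1).factorial : ℝ) :=
    Nat.choose_le_pow_div (n + 1) (2 ^ n)
  have h5 : ((1 : ℝ) / 2) ^ (n * (n + 1)) * ((2 ^ n : ℕ) : ℝ) ^ (n + 1) = 1 := by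
    push_cast
    rw [← pow_mul, ← mul_pow]
    norm_num
  have h6 : (0 : ℝ) < ((n + 1).factorial : ℝ) := by positivity
  calc ((2 ^ n).choose (n + 1) : ℝ) * (1 / 2) ^ (n * (n + 1)) ≤
      (((2 ^ n : ℕ) : ℝ) ^ (n + 1) / ((n + 1).factorial : ℝ)) * (1 / 2) ^ (n * (n + 1)) := by
        gcongr
    _ = (((1 : ℝ) / 2) ^ (n * (n + 1)) * ((2 ^ n : ℕ) : ℝ) ^ (n + 1)) /
        ((n + 1).factorial : ℝ) := by ring
    _ = 1 / ((n + 1).factorial : ℝ) := by rw [h5]

theorem sum_many : randomOracle {A | ∃ᶠ n in atTop, A ∈ Many n} = 0 := by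
  apply measure_setOfPred_frequently_eq_zero
  have hsum : Summable fun n : ℕ => (1 : ℝ) / ((n + 1).factorial : ℝ) := by
    have h0 : Summable fun n : ℕ => (1 : ℝ) / (n.factorial : ℝ) := by
      have := Real.summable_pow_div_factorial 1
      simpa using this
    exact (summable_nat_add_iff 1).2 h0
  have h1 : ∀ n, randomOracle {A | A ∈ Many n} ≤
      ENNReal.ofReal ((1 : ℝ) / ((n + 1).factorial : ℝ)) := by
    intro n
    have h2 := prob_many n
    have h3 : randomOracle {A | A ∈ Many n} = ENNReal.ofReal (prob (Many n)) := by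
      unfold prob
      rw [ofReal_measureReal]
      rfl
    rw [h3]
    exact ENNReal.ofReal_le_ofReal h2
  refine ne_top_of_le_ne_top ?_ (ENNReal.tsum_le_tsum h1)
  rw [← ENNReal.ofReal_tsum_of_nonneg (fun n => by positivity) hsum]
  exact ENNReal.ofReal_ne_top

end FW

open FW Filter

theorem few_hid : ∀ᵐ A ∂randomOracle, ∃ c : ℕ, ∀ n : ℕ,
    {y : List Bool | y.length = n ∧ y ∈ Hid A}.ncard ≤ n + c := by
  have h0 : ∀ᵐ A ∂randomOracle, ¬ ∃ᶠ n in atTop, A ∈ Many n := by
    rw [ae_iff]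
    simp only [not_not]
    exact sum_many
  filter_upwards [h0] with A hA
  rw [Filter.not_frequently, eventually_atTop] at hA
  obtain ⟨N, hN⟩ := hA
  refine ⟨2 ^ N, fun n => ?_⟩
  by_cases hn : N ≤ n
  · have := hN n hn
    unfold Many at this
    rw [Set.mem_ofPred_eq, not_lt] at this
    exact this.trans (Nat.le_add_right _ _)
  · push Not at hn
    have h1 : {y : List Bool | y.length = n ∧ y ∈ Hid A}.ncard ≤ 2 ^ n := by
      rw [← card_Ln n, ← Set.ncard_coe_finset]
      apply Set.ncard_le_ncard _ (Ln n).finite_toSet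
      intro y hy
      rw [Finset.mem_coe, mem_Ln]
      exact hy.1
    have h2 : 2 ^ n ≤ 2 ^ N := Nat.pow_le_pow_right (by norm_num) hn.le
    omega

end Pool.Agent.H583R2.LH
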