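import Pool.Agent.H583R2.LH.Defs
import Pool.Agent.H628R3.RO.D1
import Pool.Agent.H628R3.RO.G1
import Pool.Agent.NPC.Num

/-! Task RE: regions. -/

namespace Pool.Agent.H583R2.LH

open MeasureTheory Pool.Agent.NPC Pool.Agent.H628R3.RO
open Pool.Agent.H583R2.S2 (chr IsP)
open Pool.Agent.H673R2.OneTT (KA)

private theorem RE_yp (y : List Bool) (i : ℕ) : yp y i = false :: candStr i y := rfl

theorem prs_yp (y : List Bool) (i : ℕ) : prs (yp y i) = some (y, i) := by
  rw [RE_yp]
  unfold prs
  rw [if_pos]
  · rw [List.tail_cons, lvl_candStr, drop_candStr]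
  · rw [List.tail_cons, lvl_candStr, length_candStr]
    exact ⟨rfl, by omega⟩

private theorem RE_split (t : List Bool) (h : lvl t < t.length) :
    t = candStr (lvl t) (t.drop (lvl t + 1)) := by
  induction t with
  | nil => simp [lvl] at h
  | cons b t ih =>
    cases b with
    | false =>
      have : lvl (false :: t) = 0 := by simp [lvl]
      rw [this]
      rfl
    | true =>
      have h1 : lvl (true :: t) = lvl t + 1 := by simp [lvl]
      rw [h1] at h ⊢
      rw [List.length_cons] at h
      have h2 := ih (by omega)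
      rw [List.drop_succ_cons]
      unfold candStr at h2 ⊢
      rw [List.replicate_succ, List.cons_append, ← h2]

theorem prs_some {q y : List Bool} {i : ℕ} (h : prs q = some (y, i)) : q = yp y i := by
  unfold prs at h
  split_ifs at h with h1
  obtain ⟨h2, h3⟩ := h1
  rw [Option.some.injEq, Prod.mk.injEq] at h
  obtain ⟨rfl, rfl⟩ := h
  rw [RE_yp]
  cases q with
  | nil => simp at h2
  | cons b t =>
    rw [List.head?_cons, Option.some.injEq] at h2
    subst h2
    rw [List.tail_cons] at h3 ⊢
    rw [← RE_split t h3]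

theorem length_yp (y : List Bool) (i : ℕ) : (yp y i).length = i + y.length + 2 := by
  unfold yp
  rw [length_pos]
  omega

theorem yp_inj {y y' : List Bool} {i i' : ℕ} (h : yp y i = yp y' i') : y = y' ∧ i = i' := by
  obtain ⟨-, h1, h2⟩ := H628R3.RO.pos_inj h
  exact ⟨h2, h1⟩

theorem yp_ne_zp (y z : List Bool) (i j : ℕ) : yp y i ≠ zp z j := by
  intro h
  obtain ⟨h1, -, -⟩ := H628R3.RO.pos_inj h
  omega

theorem poly_prs : Poly prs := by
  unfold prs
  have ht : Poly (fun q : List Bool => q.tail) := Poly.tail Poly.id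
  refine Poly.ite (Poly.decide_and (Poly.decide_eq (Poly.head? Poly.id) (NPC.Poly.const _))
    (Poly.decide_lt (u_lvl ht).toPoly (Poly.length ht))) ?_ (NPC.Poly.const _)
  exact Poly.some (Poly.pair (p_drop ht (UPoly.add (u_lvl ht) (UPoly.const 1)))
    (u_lvl ht).toPoly)

/-- the values of `dec A [y]` -/
private theorem RE_dec_yp (A : Oracle) (Y : List (List Bool)) (y : List Bool) (i : ℕ) :
    dec A Y (yp y i) = if y ∈ Y then (if i < y.length then true else A (yp y (i - y.length)))
      else A (yp y i) := by
  unfold dec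
  rw [prs_yp]

private theorem RE_dec_none {A : Oracle} {Y : List (List Bool)} {q : List Bool}
    (h : prs q = none) : dec A Y q = A q := by
  unfold dec
  rw [h]

private theorem RE_del_yp (A : Oracle) (y y' : List Bool) (i : ℕ) :
    del y A (yp y' i) = if y' = y then A (yp y (i + y.length)) else A (yp y' i) := by
  unfold del
  rw [prs_yp]

private theorem RE_del_none {A : Oracle} {y : List Bool} {q : List Bool}
    (h : prs q = none) : del y A q = A q := by
  unfold del
  rw [h]

open Classical in
private theorem RE_ers_yp (A : Oracle) (y : List Bool) (i : ℕ) :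
    ers A (yp y i) = if y ∈ Hid A then A (yp y (i + y.length)) else A (yp y i) := by
  unfold ers
  rw [prs_yp]

private theorem RE_ers_none {A : Oracle} {q : List Bool}
    (h : prs q = none) : ers A q = A q := by
  unfold ers
  rw [h]

theorem dec_ne {A : Oracle} {y q : List Bool} (h : ∀ i, q ≠ yp y i) : dec A [y] q = A q := by
  rcases hp : prs q with _ | ⟨y', i⟩
  · exact RE_dec_none hp
  · have hq := prs_some hp
    rw [hq, RE_dec_yp, if_neg]
    intro h1
    rw [List.mem_singleton] at h1
    subst h1
    exact h i hq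

theorem hid_dec {A : Oracle} {y y' : List Bool} : y' ∈ Hid (dec A [y]) ↔ y' = y ∨ y' ∈ Hid A := by
  unfold Hid
  simp only [Set.mem_ofPred_eq, RE_dec_yp, List.mem_singleton]
  by_cases h : y' = y
  · subst h
    simp only [if_true, true_or, iff_true]
    intro i hi
    rw [if_pos hi]
  · simp [h]

theorem ers_dec {A : Oracle} {y : List Bool} (h : y ∉ Hid A) : ers (dec A [y]) = ers A := by
  funext q
  rcases hp : prs q with _ | ⟨y', i⟩
  · rw [RE_ers_none hp, RE_ers_none hp, RE_dec_none hp]
  · have hq := prs_some hp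
    rw [hq, RE_ers_yp, RE_ers_yp]
    by_cases h1 : y' = y
    · subst h1
      rw [if_pos (hid_dec.2 (Or.inl rfl)), if_neg h, RE_dec_yp, if_pos (List.mem_singleton_self _),
        if_neg (by omega), Nat.add_sub_cancel]
    · by_cases h2 : y' ∈ Hid A
      · rw [if_pos (hid_dec.2 (Or.inr h2)), if_pos h2, RE_dec_yp, if_neg (by simpa using h1)]
      · rw [if_neg (fun h3 => (hid_dec.1 h3).elim h1 h2), if_neg h2, RE_dec_yp,
          if_neg (by simpa using h1)]

theorem dec_del {A : Oracle} {y : List Bool} (h : y ∈ Hid A) : dec (del y A) [y] = A := by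
  funext q
  rcases hp : prs q with _ | ⟨y', i⟩
  · rw [RE_dec_none hp, RE_del_none hp]
  · have hq := prs_some hp
    rw [hq, RE_dec_yp]
    by_cases h1 : y' = y
    · subst h1
      rw [if_pos (List.mem_singleton_self _)]
      split_ifs with h2
      · exact (h i h2).symm
      · rw [RE_del_yp, if_pos rfl, Nat.sub_add_cancel (by omega)]
    · rw [if_neg (by simpa using h1), RE_del_yp, if_neg h1]

theorem hid_del {A : Oracle} {y y' : List Bool} (h : y' ≠ y) : y' ∈ Hid (del y A) ↔ y' ∈ Hid A := by
  unfold Hid
  simp only [Set.mem_ofPred_eq, RE_del_yp, if_neg h]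

theorem dec_ers {A : Oracle} {Y : List (List Bool)} {N : ℕ}
    (hY : ∀ y : List Bool, y.length ≤ N → (y ∈ Y ↔ y ∈ Hid A)) {q : List Bool}
    (hq : q.length ≤ N) : dec (ers A) Y q = A q := by
  rcases hp : prs q with _ | ⟨y, i⟩
  · rw [RE_dec_none hp, RE_ers_none hp]
  · have hq' := prs_some hp
    rw [hq', length_yp] at hq
    have h1 := hY y (by omega)
    rw [hq', RE_dec_yp]
    by_cases h2 : y ∈ Hid A
    · rw [if_pos (h1.2 h2)]
      split_ifs with h3
      · exact (h2 i h3).symm
      · rw [RE_ers_yp, if_pos h2, Nat.sub_add_cancel (by omega)]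
    · rw [if_neg (fun h3 => h2 (h1.1 h3)), RE_ers_yp, if_neg h2]

end Pool.Agent.H583R2.LH
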