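import Pool.Agent.H583R2.LH.Clo
import Pool.Agent.H583R2.LH.Reg
import Pool.Agent.H628R3.RO.G1

/-! Task ML: a list of the hidden strings. -/

namespace Pool.Agent.H583R2.LH

open MeasureTheory Pool.Agent.NPC Pool.Agent.H628R3.RO
open Pool.Agent.H583R2.S2 (chr IsP)
open Pool.Agent.H673R2.OneTT (KA)

/-- the list coded by a string -/
def lst (l : List Bool) : List (List Bool) := (unbits (List (List Bool)) l).getD []

theorem poly_lst : Poly lst := by
  unfold lst
  exact Poly.optGetD poly_unbits (NPC.Poly.const _)

namespace ML

theorem mem_hid {A : Oracle} {y : List Bool} :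
    y ∈ Hid A ↔ ((asks y.length 0 y).map A).all id = true := by
  rw [asks_all]
  exact Iff.rfl

/-- the position in the region -/
def pi (q : List Bool) : ℕ := lvl q.tail

/-- the owner of the region -/
def py (q : List Bool) : List Bool := q.tail.drop (lvl q.tail + 1)

/-- the string belongs to a region -/
def pc (q : List Bool) : Bool := decide (q.head? = some false) && decide (lvl q.tail < q.tail.length)

theorem prs_pos {q : List Bool} (h : pc q = true) : prs q = some (py q, pi q) := by
  unfold pc at h
  rw [Bool.and_eq_true, decide_eq_true_eq, decide_eq_true_eq] at h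
  unfold prs
  rw [if_pos h]
  rfl

theorem prs_neg {q : List Bool} (h : pc q = false) : prs q = none := by
  unfold prs
  rw [if_neg]
  intro h'
  unfold pc at h
  rw [Bool.and_eq_false_iff, decide_eq_false_iff_not, decide_eq_false_iff_not] at h
  rcases h with h | h
  · exact h h'.1
  · exact h h'.2

section

variable {α : Type} [TEnc α]

theorem u_pi {q : α → List Bool} (hq : Poly q) : UPoly (fun a => pi (q a)) := u_lvl (Poly.tail hq)

theorem p_py {q : α → List Bool} (hq : Poly q) : Poly (fun a => py (q a)) :=
  p_drop (Poly.tail hq) (UPoly.add (u_pi hq) (UPoly.const 1))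

theorem p_pc {q : α → List Bool} (hq : Poly q) : Poly (fun a => pc (q a)) :=
  Poly.and (Poly.decide_eq (Poly.head? hq) (NPC.Poly.const _))
    (Poly.decide_lt (u_pi hq).toPoly (Poly.length (Poly.tail hq)))

theorem p_yp {y : α → List Bool} {i : α → ℕ} (hy : Poly y) (hi : UPoly i) :
    Poly (fun a => yp (y a) (i a)) := p_pos (UPoly.const 0) hi hy

theorem u_sub {m n : α → ℕ} (hm : UPoly m) (hn : UPoly n) : UPoly (fun a => m a - n a) :=
  UPoly.of_le (Poly.sub hm.toPoly hn.toPoly) hm fun _ => Nat.sub_le _ _

end

end ML

open ML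

theorem isNP_TT (A : Oracle) : IsNP A (TT A) := by
  refine isNP_of_tt A _ (Q := fun p => asks p.2.length 0 p.2)
    (T := fun p => decide (p.1.1 = p.1.2.map (fun _ => true)) && p.2.all id) ?_ ?_
    Polynomial.X fun x => ?_
  · exact p_asks (UPoly.length (Poly.snd Poly.id)) (UPoly.const 0) (Poly.snd Poly.id)
  · exact Poly.and (Poly.decide_eq (Poly.fst (Poly.fst Poly.id))
      (NPC.Poly.map (Poly.snd (Poly.fst Poly.id)) (NPC.Poly.const true)))
      (p_all_id (Poly.snd Poly.id))
  · simp only [Bool.and_eq_true, decide_eq_true_eq, Polynomial.eval_X]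
    constructor
    · rintro ⟨n, hx, y, hy, hh⟩
      refine ⟨y, ?_, ?_, mem_hid.1 hh⟩
      · rw [hx, List.length_replicate, hy]
      · rw [hx, List.map_const', hy]
    · rintro ⟨y, -, hx, hh⟩
      exact ⟨y.length, by rw [hx, List.map_const'], y, rfl, mem_hid.2 hh⟩

theorem isP_hid (A : Oracle) : IsP A (Hid A) := by
  refine ⟨fun y => [((asks y.length 0 y).map A).all id], ?_, fun y => ?_⟩
  · exact IsFP.tt (Q := fun y => asks y.length 0 y) (H := fun p => [p.2.all id])
      (p_asks (UPoly.length Poly.id) (UPoly.const 0) Poly.id)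
      (Poly.cons (p_all_id (Poly.snd Poly.id)) (NPC.Poly.const []))
  · rw [mem_hid, List.cons.injEq, and_iff_left rfl]

theorem isP_ers (A : Oracle) : IsP A {q | ers A q = true} := by
  refine ⟨fun q => (fun p : List Bool × List Bool =>
      [if (pc p.1 && (p.2.drop 2).all id) = true then p.2.getD 1 false else p.2.getD 0 false])
      (q, ((fun q => q :: yp (py q) (pi q + (py q).length) ::
        asks (py q).length 0 (py q)) q).map A), ?_, fun q => ?_⟩
  · refine IsFP.tt (Q := fun q => q :: yp (py q) (pi q + (py q).length) ::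
        asks (py q).length 0 (py q)) (H := fun p : List Bool × List Bool =>
      [if (pc p.1 && (p.2.drop 2).all id) = true then p.2.getD 1 false else p.2.getD 0 false])
      ?_ ?_
    · have h1 : Poly (fun q : List Bool => q) := Poly.id
      exact Poly.cons h1 (Poly.cons (p_yp (p_py h1) (UPoly.add (u_pi h1) (UPoly.length (p_py h1))))
        (p_asks (UPoly.length (p_py h1)) (UPoly.const 0) (p_py h1)))
    · have h1 : Poly (fun p : List Bool × List Bool => p.1) := Poly.fst Poly.id
      have h2 : Poly (fun p : List Bool × List Bool => p.2) := Poly.snd Poly.id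
      refine Poly.cons (Poly.ite (Poly.decide_bool (Poly.and (p_pc h1)
        (p_all_id (p_drop h2 (UPoly.const 2))))) ?_ ?_) (NPC.Poly.const [])
      · exact Poly.getD h2 (NPC.Poly.const 1) (NPC.Poly.const false)
      · exact Poly.getD h2 (NPC.Poly.const 0) (NPC.Poly.const false)
  · rw [List.cons.injEq, and_iff_left rfl]
    simp only [List.map_cons, List.drop_succ_cons, List.drop_zero, List.getD_cons_succ,
      List.getD_cons_zero, Set.mem_ofPred_eq]
    cases h : pc q with
    | false =>
      rw [Bool.false_and, if_neg Bool.false_ne_true]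
      unfold ers
      rw [prs_neg h]
    | true =>
      rw [Bool.true_and]
      unfold ers
      rw [prs_pos h]
      by_cases h1 : py q ∈ Hid A
      · rw [if_pos (mem_hid.1 h1)]
        simp only [if_pos h1]
      · rw [if_neg (fun h2 => h1 (mem_hid.2 h2))]
        simp only [if_neg h1]

theorem isP_dec (A : Oracle) : IsP A {u | dec A (lst (unpair u).1) (unpair u).2 = true} := by
  refine ⟨fun u => (fun p : List Bool × List Bool =>
      [if pc (unpair p.1).2 = true ∧ py (unpair p.1).2 ∈ lst (unpair p.1).1 then
        (if pi (unpair p.1).2 < (py (unpair p.1).2).length then true else p.2.getD 1 false)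
        else p.2.getD 0 false])
      (u, ((fun u => [(unpair u).2, yp (py (unpair u).2)
        (pi (unpair u).2 - (py (unpair u).2).length)]) u).map A), ?_, fun u => ?_⟩
  · refine IsFP.tt (Q := fun u => [(unpair u).2, yp (py (unpair u).2)
        (pi (unpair u).2 - (py (unpair u).2).length)]) (H := fun p : List Bool × List Bool =>
      [if pc (unpair p.1).2 = true ∧ py (unpair p.1).2 ∈ lst (unpair p.1).1 then
        (if pi (unpair p.1).2 < (py (unpair p.1).2).length then true else p.2.getD 1 false)
        else p.2.getD 0 false])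
      ?_ ?_
    · have h1 : Poly (fun u : List Bool => (unpair u).2) := Poly.snd poly_unpair
      exact Poly.cons h1 (Poly.cons (p_yp (p_py h1) (u_sub (u_pi h1) (UPoly.length (p_py h1))))
        (NPC.Poly.const []))
    · have h1 : Poly (fun p : List Bool × List Bool => (unpair p.1).2) :=
        (Poly.snd poly_unpair).comp (Poly.fst Poly.id)
      have h3 : Poly (fun p : List Bool × List Bool => lst (unpair p.1).1) :=
        (poly_lst.comp (Poly.fst poly_unpair)).comp (Poly.fst Poly.id)
      have h2 : Poly (fun p : List Bool × List Bool => p.2) := Poly.snd Poly.id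
      refine Poly.cons (Poly.ite (Poly.decide_and (Poly.decide_bool (p_pc h1))
        (Poly.dec_mem (p_py h1) h3)) (Poly.ite (Poly.decide_lt (u_pi h1).toPoly
          (Poly.length (p_py h1))) (NPC.Poly.const true) ?_) ?_) (NPC.Poly.const [])
      · exact Poly.getD h2 (NPC.Poly.const 1) (NPC.Poly.const false)
      · exact Poly.getD h2 (NPC.Poly.const 0) (NPC.Poly.const false)
  · rw [List.cons.injEq, and_iff_left rfl]
    simp only [List.map_cons, List.map_nil, List.getD_cons_succ,
      List.getD_cons_zero, Set.mem_ofPred_eq]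
    generalize (unpair u).2 = q
    cases h : pc q with
    | false =>
      rw [if_neg (fun h => Bool.false_ne_true h.1)]
      unfold dec
      rw [prs_neg h]
    | true =>
      unfold dec
      rw [prs_pos h]
      simp only [true_and]

namespace ML

/-! ### the sorted list of the hidden strings of one length -/

theorem valB_inj : ∀ {y z : List Bool}, y.length = z.length → valB y = valB z → y = z
  | [], [], _, _ => rfl
  | [], _ :: _, h, _ => by simp at h
  | _ :: _, [], h, _ => by simp at h
  | a :: y, b :: z, h, h' => by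
    rw [valB_cons, valB_cons] at h'
    have h1 : a = b := by
      cases a <;> cases b <;> simp at h' ⊢ <;> omega
    subst h1
    have h2 : valB y = valB z := by omega
    rw [valB_inj (by simpa using h) h2]

/-- increasing lists -/
def Inc (L : List (List Bool)) : Prop := L.Pairwise (fun a b => valB a < valB b)

/-- a test for increasing lists -/
def incr (L : List (List Bool)) : Bool := (L.zip L.tail).all (fun p => decide (valB p.1 < valB p.2))

theorem incr_chain : ∀ L : List (List Bool), incr L = true ↔
    L.IsChain (fun a b => valB a < valB b)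
  | [] => by simp [incr]
  | [a] => by simp [incr]
  | a :: b :: l => by
    have ih := incr_chain (b :: l)
    rw [List.isChain_cons_cons, ← ih]
    simp only [incr, List.tail_cons, List.zip_cons_cons, List.all_cons, Bool.and_eq_true,
      decide_eq_true_eq]

theorem incr_iff (L : List (List Bool)) : incr L = true ↔ Inc L := by
  have : Trans (fun a b : List Bool => valB a < valB b) (fun a b : List Bool => valB a < valB b)
    (fun a b : List Bool => valB a < valB b) := ⟨fun h h' => lt_trans h h'⟩
  rw [incr_chain, List.isChain_iff_pairwise]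
  exact Iff.rfl

theorem Inc.nodup {L : List (List Bool)} (h : Inc L) : L.Nodup :=
  List.Pairwise.imp (fun h' => fun h'' => by rw [h''] at h'; exact lt_irrefl _ h') h

theorem Inc.eq {L L' : List (List Bool)} (h : Inc L) (h' : Inc L') (hp : L.Perm L') : L = L' :=
  hp.eq_of_pairwise (le := fun a b => valB a < valB b)
    (fun _ _ _ _ h1 h2 => absurd (h1.trans h2) (lt_irrefl _)) h h'

theorem exists_inc (n : ℕ) (S : Finset (List Bool)) : (∀ y ∈ S, y.length = n) →
    ∃ L, Inc L ∧ ∀ y, y ∈ L ↔ y ∈ S := by
  refine Finset.induction_on_max_value valB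
    (motive := fun S => (∀ y ∈ S, y.length = n) → ∃ L, Inc L ∧ ∀ y, y ∈ L ↔ y ∈ S) S ?_ ?_
  · exact fun _ => ⟨[], List.Pairwise.nil, fun y => by simp⟩
  · intro a s ha hm ih h
    obtain ⟨L, hL, hm'⟩ := ih (fun y hy => h y (Finset.mem_insert_of_mem hy))
    refine ⟨L ++ [a], ?_, fun y => ?_⟩
    · unfold Inc
      rw [List.pairwise_append]
      refine ⟨hL, List.pairwise_singleton _ _, fun x hx b hb => ?_⟩
      rw [List.mem_singleton] at hb
      subst hb
      have hx' := (hm' x).1 hx
      refine lt_of_le_of_ne (hm x hx') fun he => ha ?_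
      have h1 := valB_inj ((h x (Finset.mem_insert_of_mem hx')).trans
        (h b (Finset.mem_insert_self _ _)).symm) he
      rw [← h1]
      exact hx'
    · rw [List.mem_append, hm', List.mem_singleton, Finset.mem_insert, or_comm]

theorem finite_hid (A : Oracle) (n : ℕ) : {y : List Bool | y.length = n ∧ y ∈ Hid A}.Finite :=
  (List.finite_length_eq Bool n).subset fun _ h => h.1

theorem exists_list (A : Oracle) (n : ℕ) : ∃ L, Inc L ∧ (∀ y, y ∈ L ↔ y.length = n ∧ y ∈ Hid A) ∧
    L.length = {y : List Bool | y.length = n ∧ y ∈ Hid A}.ncard := by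
  obtain ⟨L, hL, hm⟩ := exists_inc n (finite_hid A n).toFinset
    (fun y hy => ((finite_hid A n).mem_toFinset.1 hy).1)
  have hm' : ∀ y, y ∈ L ↔ y.length = n ∧ y ∈ Hid A :=
    fun y => (hm y).trans (finite_hid A n).mem_toFinset
  refine ⟨L, hL, hm', ?_⟩
  have h1 : {y : List Bool | y.length = n ∧ y ∈ Hid A} = (L.toFinset : Set (List Bool)) := by
    ext y
    rw [Finset.mem_coe, List.mem_toFinset, hm']
    exact Iff.rfl
  rw [h1, Set.ncard_coe_finset, List.toFinset_card_of_nodup hL.nodup]

/-! ### the set in `NP` -/

/-- the type of the instances -/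
abbrev K : Type := List Unit × List Unit × List Unit × List Unit

/-- the test of a list -/
def tst (k : K) (L : List (List Bool)) : Bool :=
  (decide (L.length = k.2.1.length) && incr L) &&
    (L.all (fun y => decide (y.length = k.1.length)) &&
      (decide (k.2.2.2.length = k.1.length) ||
        (L.getD k.2.2.1.length []).getD k.2.2.2.length false))

/-- the questions -/
def qE (p : List Bool × List Bool) : List (List Bool) :=
  (lst p.2).flatMap (fun y => asks y.length 0 y)

/-- the test -/
def tE (p : (List Bool × List Bool) × List Bool) : Bool :=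
  (unbits K p.1.1).elim false (fun k => tst k (lst p.1.2) && p.2.all id)

/-- the bound for the witnesses -/
noncomputable def rE : Polynomial ℕ :=
  Polynomial.X * (Polynomial.C 4 * Polynomial.X + Polynomial.C 2) + Polynomial.C 1

/-- the set -/
def EE (A : Oracle) : Set (List Bool) := {x | ∃ w : List Bool, w.length ≤ rE.eval x.length ∧
  tE ((x, w), (qE (x, w)).map A) = true}

theorem poly_qE : Poly qE := by
  unfold qE
  have h1 : Poly (fun p : List Bool × List Bool => lst p.2) := poly_lst.comp (Poly.snd Poly.id)
  exact Poly.flatMap (F := fun _ y => asks y.length 0 y) h1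
    (p_asks (UPoly.length (Poly.snd Poly.id)) (UPoly.const 0) (Poly.snd Poly.id))

theorem poly_incr : Poly incr := by
  unfold incr
  refine Poly.all (p := fun _ (p : List Bool × List Bool) => decide (valB p.1 < valB p.2))
    (Poly.zip Poly.id (Poly.tail Poly.id)) ?_
  exact Poly.decide_lt (Poly.valBits (Poly.fst (Poly.snd Poly.id)))
    (Poly.valBits (Poly.snd (Poly.snd Poly.id)))

theorem poly_tst : Poly (fun p : K × List (List Bool) => tst p.1 p.2) := by
  unfold tst
  have h1 : Poly (fun p : K × List (List Bool) => incr p.2) := poly_incr.comp (Poly.snd Poly.id)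
  have h2 : Poly (fun p : K × List (List Bool) => decide (p.2.length = p.1.2.1.length)) :=
    Poly.decide_eq (Poly.length (Poly.snd Poly.id))
      (Poly.length (Poly.fst (Poly.snd (Poly.fst Poly.id))))
  have h3 : Poly (fun p : K × List (List Bool) =>
      p.2.all (fun y => decide (y.length = p.1.1.length))) :=
    Poly.all (p := fun (p : K × List (List Bool)) (y : List Bool) =>
      decide (y.length = p.1.1.length)) (Poly.snd Poly.id)
      (Poly.decide_eq (Poly.length (Poly.snd Poly.id))
        (Poly.length (Poly.fst (Poly.fst (Poly.fst Poly.id)))))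
  have h4 : Poly (fun p : K × List (List Bool) => decide (p.1.2.2.2.length = p.1.1.length)) :=
    Poly.decide_eq (Poly.length (Poly.snd (Poly.snd (Poly.snd (Poly.fst Poly.id)))))
      (Poly.length (Poly.fst (Poly.fst Poly.id)))
  have h5 : Poly (fun p : K × List (List Bool) =>
      (p.2.getD p.1.2.2.1.length []).getD p.1.2.2.2.length false) :=
    Poly.getD (Poly.getD (Poly.snd Poly.id)
      (Poly.length (Poly.fst (Poly.snd (Poly.snd (Poly.fst Poly.id))))) (NPC.Poly.const _))
      (Poly.length (Poly.snd (Poly.snd (Poly.snd (Poly.fst Poly.id))))) (NPC.Poly.const _)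
  exact Poly.and (Poly.and h2 h1) (Poly.and h3 (Poly.or h4 h5))

theorem poly_tE : Poly tE := by
  unfold tE
  have h0 : Poly (fun p : (List Bool × List Bool) × List Bool => p.1.1) :=
    Poly.fst (Poly.fst Poly.id)
  have h1 : Poly (fun p : (List Bool × List Bool) × List Bool => unbits K p.1.1) :=
    Poly.comp (g := unbits K) (f := fun p : (List Bool × List Bool) × List Bool => p.1.1)
      poly_unbits h0
  have h2 : Poly (fun p : ((List Bool × List Bool) × List Bool) × K => lst p.1.1.2) :=
    Poly.comp (g := lst) (f := fun p : ((List Bool × List Bool) × List Bool) × K => p.1.1.2)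
      poly_lst (Poly.snd (Poly.fst (Poly.fst Poly.id)))
  have h3 : Poly (fun p : ((List Bool × List Bool) × List Bool) × K => (p.2, lst p.1.1.2)) :=
    Poly.pair (Poly.snd Poly.id) h2
  have h4 : Poly (fun p : ((List Bool × List Bool) × List Bool) × K => tst p.2 (lst p.1.1.2)) :=
    Poly.comp (g := fun p : K × List (List Bool) => tst p.1 p.2)
      (f := fun p : ((List Bool × List Bool) × List Bool) × K => (p.2, lst p.1.1.2)) poly_tst h3
  have h5 : Poly (fun p : ((List Bool × List Bool) × List Bool) × K => p.1.2.all id) :=
    p_all_id (Poly.snd (Poly.fst Poly.id))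
  have h6 : Poly (fun p : ((List Bool × List Bool) × List Bool) × K =>
      tst p.2 (lst p.1.1.2) && p.1.2.all id) := Poly.and h4 h5
  exact Poly.optElim (o := fun p : (List Bool × List Bool) × List Bool => unbits K p.1.1)
    (g := fun _ => false)
    (h := fun (p : (List Bool × List Bool) × List Bool) (k : K) =>
      tst k (lst p.1.2) && p.2.all id) h1 (NPC.Poly.const false) h6

theorem isNP_EE (A : Oracle) : IsNP A (EE A) :=
  isNP_of_tt A _ poly_qE poly_tE rE fun _ => Iff.rfl

theorem all_qE {A : Oracle} {x w : List Bool} : ((qE (x, w)).map A).all id = true ↔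
    ∀ y ∈ lst w, y ∈ Hid A := by
  unfold qE
  rw [List.all_eq_true]
  constructor
  · intro h y hy
    rw [mem_hid, List.all_eq_true]
    intro b hb
    obtain ⟨q, hq, rfl⟩ := List.mem_map.1 hb
    exact h _ (List.mem_map.2 ⟨q, List.mem_flatMap.2 ⟨y, hy, hq⟩, rfl⟩)
  · intro h b hb
    obtain ⟨q, hq, rfl⟩ := List.mem_map.1 hb
    obtain ⟨y, hy, hq'⟩ := List.mem_flatMap.1 hq
    have h1 := mem_hid.1 (h y hy)
    rw [List.all_eq_true] at h1
    exact h1 _ (List.mem_map.2 ⟨q, hq', rfl⟩)

theorem lst_bits (L : List (List Bool)) : lst (bits L) = L := by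
  unfold lst
  rw [unbits_bits]
  rfl

theorem mem_EE {A : Oracle} {n m i j : List Unit} : bits (n, m, i, j) ∈ EE A ↔
    ∃ L : List (List Bool), L.length = m.length ∧ Inc L ∧
      (∀ y ∈ L, y.length = n.length ∧ y ∈ Hid A) ∧
      (j.length = n.length ∨ (L.getD i.length []).getD j.length false = true) := by
  have key : ∀ w : List Bool, tE ((bits (n, m, i, j), w), (qE (bits (n, m, i, j), w)).map A) = true
      ↔ ((lst w).length = m.length ∧ Inc (lst w) ∧
      (∀ y ∈ lst w, y.length = n.length ∧ y ∈ Hid A) ∧
      (j.length = n.length ∨ ((lst w).getD i.length []).getD j.length false = true)) := by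
    intro w
    unfold tE
    rw [unbits_bits]
    change (tst (n, m, i, j) (lst w) && ((qE (bits (n, m, i, j), w)).map A).all id) = true ↔ _
    rw [Bool.and_eq_true, all_qE]
    unfold tst
    simp only [Bool.and_eq_true, decide_eq_true_eq, incr_iff, Bool.or_eq_true, List.all_eq_true]
    constructor
    · rintro ⟨⟨⟨h1, h2⟩, h3, h4⟩, h5⟩
      exact ⟨h1, h2, fun y hy => ⟨h3 y hy, h5 y hy⟩, h4⟩
    · rintro ⟨h1, h2, h3, h4⟩
      exact ⟨⟨⟨h1, h2⟩, fun y hy => (h3 y hy).1, h4⟩, fun y hy => (h3 y hy).2⟩
  constructor
  · rintro ⟨w, -, h⟩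
    exact ⟨lst w, (key w).1 h⟩
  · rintro ⟨L, h⟩
    refine ⟨bits L, ?_, (key _).2 (by rw [lst_bits]; exact h)⟩
    have h1 : sz L ≤ L.length * (4 * n.length + 1 + 1) + 1 := by
      refine sz_le_length_mul L _ fun y hy => ?_
      rw [← (h.2.2.1 y hy).1]
      exact sz_listBool_le y
    have h2 : (bits (n, m, i, j)).length = sz (n, m, i, j) := bits_length _
    have h3 : n.length ≤ (bits (n, m, i, j)).length := by
      have := length_lt_sz n
      rw [h2]
      simp only [sz_pair]
      omega
    have h4 : m.length ≤ (bits (n, m, i, j)).length := by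
      have := length_lt_sz m
      rw [h2]
      simp only [sz_pair]
      omega
    rw [bits_length]
    refine h1.trans ?_
    unfold rE
    simp only [Polynomial.eval_add, Polynomial.eval_mul, Polynomial.eval_X, Polynomial.eval_C]
    rw [h.1]
    exact Nat.add_le_add_right (Nat.mul_le_mul h4 (by omega)) 1

theorem mem_EE_count {A : Oracle} {n m : List Unit} {L : List (List Bool)} (hL : Inc L)
    (hm : ∀ y, y ∈ L ↔ y.length = n.length ∧ y ∈ Hid A) :
    bits (n, m, ([] : List Unit), n) ∈ EE A ↔ m.length ≤ L.length := by
  rw [mem_EE]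
  constructor
  · rintro ⟨L', h1, h2, h3, -⟩
    rw [← h1]
    exact (h2.nodup.subperm fun y hy => (hm y).2 (h3 y hy)).length_le
  · intro h
    refine ⟨L.take m.length, ?_, ?_, fun y hy => (hm y).1 (List.mem_of_mem_take hy), Or.inl rfl⟩
    · rw [List.length_take, min_eq_left h]
    · exact List.Pairwise.sublist (List.take_sublist _ _) hL

theorem mem_EE_bit {A : Oracle} {n m i j : List Unit} {L : List (List Bool)} (hL : Inc L)
    (hm : ∀ y, y ∈ L ↔ y.length = n.length ∧ y ∈ Hid A) (h : m.length = L.length)
    (hj : j.length < n.length) :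
    bits (n, m, i, j) ∈ EE A ↔ (L.getD i.length []).getD j.length false = true := by
  rw [mem_EE]
  constructor
  · rintro ⟨L', h1, h2, h3, h4⟩
    have h5 : L'.Perm L := (h2.nodup.subperm fun y hy => (hm y).2 (h3 y hy)).perm_of_length_le
      (by rw [h1, h])
    rw [h2.eq hL h5] at h4
    rcases h4 with h4 | h4
    · omega
    · exact h4
  · intro h'
    exact ⟨L, h.symm, hL, fun y hy => (hm y).1 hy, Or.inr h'⟩

/-! ### the algorithm -/

/-- smaller unary numbers -/
def ul (l : List Unit) : List (List Unit) :=
  (List.range l.length).map (fun i => List.replicate i ())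

theorem mem_ul {l u : List Unit} : u ∈ ul l ↔ u.length < l.length := by
  unfold ul
  rw [List.mem_map]
  constructor
  · rintro ⟨i, hi, rfl⟩
    rw [List.length_replicate]
    exact List.mem_range.1 hi
  · intro h
    exact ⟨u.length, List.mem_range.2 h, (List.eq_replicate_of_mem fun _ _ => rfl).symm⟩

theorem length_ul (l : List Unit) : (ul l).length = l.length := by
  unfold ul
  rw [List.length_map, List.length_range]

section

variable {α β : Type} [TEnc α] [TEnc β]

theorem p_ul {l : α → List Unit} (hl : Poly l) : Poly (fun a => ul (l a)) := by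
  have h1 : Poly (fun p : α × ℕ => p.2) := Poly.snd Poly.id
  have h2 : Poly (fun p : α × ℕ => l p.1) := hl.comp (Poly.fst Poly.id)
  refine (NPC.Poly.map (F := fun (a : α) (i : ℕ) => List.replicate (min i (l a).length) ())
    (UPoly.length hl).range ?_).congr fun a => ?_
  · exact UPoly.of_le (m := fun p : α × ℕ => min p.2 (l p.1).length)
      (Poly.min h1 (Poly.length h2)) (UPoly.length h2) fun a => min_le_right _ _
  · unfold ul
    apply List.map_congr_left
    intro i hi
    rw [List.mem_range] at hi
    rw [min_eq_left hi.le]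

theorem p_bits {g : α → β} (hg : Poly g) : Poly (fun a => bits (g a)) := by
  have h1 : PC (bits : α → List Bool) (fun x : List Bool => x) (fun a => bits (g a)) := by
    obtain ⟨c, p, h⟩ := hg
    exact ⟨c, p, h⟩
  exact PC.comp (g := fun x => x) (f := fun a => bits (g a)) PC.rawIn h1

end

attribute [local fun_prop] p_ul p_bits

/-- the questions -/
def Qs (cc B : List Unit) : List (List Bool) :=
  (ul (() :: B)).flatMap fun n => (ul (() :: (n ++ cc))).flatMap fun m =>
    (ul (() :: m)).flatMap fun i => (ul (() :: n)).map fun j => false :: bits (n, m, i, j)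

theorem poly_Qs (cc : List Unit) : Poly (fun B => Qs cc B) := by
  unfold Qs
  fun_prop

theorem mem_Qs {cc B n m i j : List Unit} (hn : n.length ≤ B.length)
    (hm : m.length ≤ n.length + cc.length) (hi : i.length ≤ m.length) (hj : j.length ≤ n.length) :
    (false :: bits (n, m, i, j)) ∈ Qs cc B := by
  unfold Qs
  simp only [List.mem_flatMap, List.mem_map, mem_ul]
  refine ⟨n, ?_, m, ?_, i, ?_, j, ?_, rfl⟩
  · rw [List.length_cons]; omega
  · rw [List.length_cons, List.length_append]; omega
  · rw [List.length_cons]; omega
  · rw [List.length_cons]; omega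

/-- the questions answered with yes -/
def yes (q : List (List Bool)) (a : List Bool) : List (List Bool) :=
  ((q.zip a).filter (fun p => p.2)).map (fun p => p.1)

theorem mem_yes {O : Oracle} {u : List Bool} : ∀ q : List (List Bool),
    u ∈ yes q (q.map O) ↔ u ∈ q ∧ O u = true
  | [] => by simp [yes]
  | v :: q => by
    have ih := mem_yes (O := O) (u := u) q
    unfold yes at ih ⊢
    rw [List.map_cons, List.zip_cons_cons, List.filter_cons, List.mem_cons]
    split_ifs with h
    · rw [List.map_cons, List.mem_cons, ih]
      constructor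
      · rintro (h1 | h1)
        · exact ⟨Or.inl h1, by rw [h1]; exact h⟩
        · exact ⟨Or.inr h1.1, h1.2⟩
      · rintro ⟨h1 | h1, h2⟩
        · exact Or.inl h1
        · exact Or.inr ⟨h1, h2⟩
    · rw [ih]
      constructor
      · rintro ⟨h1, h2⟩
        exact ⟨Or.inr h1, h2⟩
      · rintro ⟨h1 | h1, h2⟩
        · exact absurd (by rw [← h1]; exact h2) h
        · exact ⟨h1, h2⟩

/-- the number of the hidden strings -/
def cnt (cc n : List Unit) (P : List (List Bool)) : List Unit :=
  ((ul (n ++ cc)).filter
    (fun m => decide ((false :: bits (n, () :: m, ([] : List Unit), n)) ∈ P))).map (fun _ => ())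

/-- the list of the hidden strings of length `n` -/
def out (cc n : List Unit) (P : List (List Bool)) : List (List Bool) :=
  (ul (cnt cc n P)).map (fun i => (ul n).map
    (fun j => decide ((false :: bits (n, cnt cc n P, i, j)) ∈ P)))

/-- the list of the hidden strings of length at most `B` -/
def fin (cc B : List Unit) (P : List (List Bool)) : List (List Bool) :=
  (ul (() :: B)).flatMap (fun n => out cc n P)

theorem poly_fin (cc : List Unit) :
    Poly (fun p : List Unit × List (List Bool) => fin cc p.1 p.2) := by
  unfold fin out cnt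
  fun_prop

theorem poly_yes : Poly (fun p : List (List Bool) × List Bool => yes p.1 p.2) := by
  unfold yes
  fun_prop

theorem filter_range_le {k N : ℕ} (h : k ≤ N) :
    ((List.range N).filter (fun i => decide (i + 1 ≤ k))).length = k := by
  have h1 : (List.range N).filter (fun i => decide (i + 1 ≤ k)) = List.range k := by
    obtain ⟨r, rfl⟩ := Nat.exists_eq_add_of_le h
    rw [List.range_add, List.filter_append]
    rw [List.filter_eq_self.2, List.filter_eq_nil_iff.2, List.append_nil]
    · intro a ha
      obtain ⟨i, -, rfl⟩ := List.mem_map.1 ha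
      simp
    · intro a ha
      rw [List.mem_range] at ha
      simpa using ha
  rw [h1, List.length_range]

section

variable {A O : Oracle} {cc B n : List Unit} {L : List (List Bool)} (hL : Inc L)
  (hm : ∀ y, y ∈ L ↔ y.length = n.length ∧ y ∈ Hid A) (hB : n.length ≤ B.length)
  (hO : ∀ u, O (false :: u) = true ↔ u ∈ EE A) (hl : L.length ≤ n.length + cc.length)
include hL hm hB hO hl

theorem length_cnt : (cnt cc n (yes (Qs cc B) ((Qs cc B).map O))).length = L.length := by
  unfold cnt ul
  rw [List.length_map, List.filter_map, List.length_map, List.length_append]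
  rw [← filter_range_le hl]
  congr 1
  apply List.filter_congr
  intro m hm'
  rw [List.mem_range] at hm'
  rw [Function.comp_apply, decide_eq_decide, mem_yes, hO, mem_EE_count hL hm, List.length_cons,
    List.length_replicate]
  constructor
  · exact fun h => h.2
  · intro h
    refine ⟨mem_Qs hB ?_ (Nat.zero_le _) le_rfl, h⟩
    rw [List.length_cons, List.length_replicate]
    omega

theorem out_eq : out cc n (yes (Qs cc B) ((Qs cc B).map O)) = L := by
  have hc := length_cnt (B := B) hL hm hB hO hl
  unfold out
  apply List.ext_getElem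
  · rw [List.length_map, length_ul, hc]
  · intro i h1 h2
    rw [List.getElem_map]
    have h3 : (L[i]).length = n.length := ((hm _).1 (List.getElem_mem h2)).1
    apply List.ext_getElem
    · rw [List.length_map, length_ul, h3]
    · intro j h4 h5
      rw [List.getElem_map]
      have h6 : ((ul (cnt cc n (yes (Qs cc B) ((Qs cc B).map O))))[i]'(by
          rwa [List.length_map] at h1)).length = i := by
        unfold ul
        rw [List.getElem_map, List.length_replicate, List.getElem_range]
      have h7 : ((ul n)[j]'(by rwa [List.length_map] at h4)).length = j := by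
        unfold ul
        rw [List.getElem_map, List.length_replicate, List.getElem_range]
      have h8 : j < n.length := by omega
      rw [Bool.eq_iff_iff, decide_eq_true_eq, mem_yes, hO,
        mem_EE_bit hL hm hc (by rw [h7]; exact h8), h6, h7]
      rw [List.getD_eq_getElem _ _ h2, List.getD_eq_getElem _ _ h5]
      constructor
      · exact fun h => h.2
      · intro h
        refine ⟨mem_Qs hB (by rw [hc]; exact hl) ?_ ?_, h⟩
        · rw [h6, hc]; exact h2.le
        · rw [h7]; exact h8.le

end

end ML

namespace ML

/-- the list computed from the answers -/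
def gg (cc : List Unit) (p : List Unit × List Bool) : List Bool :=
  bits (fin cc p.1 (yes (Qs cc p.1) p.2))

theorem poly_gg (cc : List Unit) : Poly (gg cc) := by
  unfold gg
  have h1 : Poly (fun p : List Unit × List Bool => Qs cc p.1) :=
    Poly.comp (g := fun B => Qs cc B) (f := fun p : List Unit × List Bool => p.1)
      (poly_Qs cc) (Poly.fst Poly.id)
  have h2 : Poly (fun p : List Unit × List Bool => (Qs cc p.1, p.2)) :=
    Poly.pair h1 (Poly.snd Poly.id)
  have h3 : Poly (fun p : List Unit × List Bool => yes (Qs cc p.1) p.2) :=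
    Poly.comp (g := fun p : List (List Bool) × List Bool => yes p.1 p.2)
      (f := fun p : List Unit × List Bool => (Qs cc p.1, p.2)) poly_yes h2
  have h4 : Poly (fun p : List Unit × List Bool => (p.1, yes (Qs cc p.1) p.2)) :=
    Poly.pair (Poly.fst Poly.id) h3
  have h5 : Poly (fun p : List Unit × List Bool => fin cc p.1 (yes (Qs cc p.1) p.2)) :=
    Poly.comp (g := fun p : List Unit × List (List Bool) => fin cc p.1 p.2)
      (f := fun p : List Unit × List Bool => (p.1, yes (Qs cc p.1) p.2)) (poly_fin cc) h4
  exact p_bits h5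

theorem isFP_gg (O : Oracle) (cc : List Unit) {B : List Bool → List Unit} (hB : Poly B) :
    IsFP O (fun x => gg cc (B x, (Qs cc (B x)).map O)) := by
  have h1 : Poly (fun x => Qs cc (B x)) :=
    Poly.comp (g := fun B => Qs cc B) (f := B) (poly_Qs cc) hB
  have h2 : Poly (fun p : List Bool × List Bool => B p.1) :=
    Poly.comp (g := B) (f := fun p : List Bool × List Bool => p.1) hB (Poly.fst Poly.id)
  have h3 : Poly (fun p : List Bool × List Bool => (B p.1, p.2)) :=
    Poly.pair h2 (Poly.snd Poly.id)
  have h4 : Poly (fun p : List Bool × List Bool => gg cc (B p.1, p.2)) :=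
    Poly.comp (g := gg cc) (f := fun p : List Bool × List Bool => (B p.1, p.2)) (poly_gg cc) h3
  exact IsFP.tt (Q := fun x => Qs cc (B x)) (H := fun p => gg cc (B p.1, p.2)) h1 h4

theorem mem_gg {A O : Oracle} {cc B : List Unit}
    (hc : ∀ n : ℕ, {y : List Bool | y.length = n ∧ y ∈ Hid A}.ncard ≤ n + cc.length)
    (hO : ∀ u, O (false :: u) = true ↔ u ∈ EE A) {y : List Bool} (hy : y.length ≤ B.length) :
    y ∈ lst (gg cc (B, (Qs cc B).map O)) ↔ y ∈ Hid A := by
  unfold gg
  rw [lst_bits]
  change y ∈ fin cc B (yes (Qs cc B) ((Qs cc B).map O)) ↔ _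
  have key : ∀ n : List Unit, n.length ≤ B.length →
      ∀ z, z ∈ out cc n (yes (Qs cc B) ((Qs cc B).map O)) ↔ z.length = n.length ∧ z ∈ Hid A := by
    intro n hn z
    obtain ⟨L, hL, hm, hl⟩ := exists_list A n.length
    rw [out_eq hL hm hn hO (by rw [hl]; exact hc _)]
    exact hm z
  unfold fin
  rw [List.mem_flatMap]
  constructor
  · rintro ⟨n, hn, hz⟩
    rw [mem_ul, List.length_cons] at hn
    exact ((key n (by omega) y).1 hz).2
  · intro h
    refine ⟨List.replicate y.length (), ?_, ?_⟩
    · rw [mem_ul, List.length_cons, List.length_replicate]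
      omega
    · rw [key _ (by rw [List.length_replicate]; exact hy), List.length_replicate]
      exact ⟨rfl, h⟩

end ML

theorem hid_list {A : Oracle} {c : ℕ} (hc : ∀ n : ℕ,
    {y : List Bool | y.length = n ∧ y ∈ Hid A}.ncard ≤ n + c) :
    ∃ E : Set (List Bool), IsNP A E ∧ ∀ (J : Set (List Bool)) (b : Polynomial ℕ),
      ∃ G : List Bool → List Bool, IsFP (chr (jn J E)) G ∧
        ∀ x y : List Bool, y.length ≤ b.eval x.length → (y ∈ lst (G x) ↔ y ∈ Hid A) := by
  refine ⟨EE A, isNP_EE A, fun J b => ?_⟩
  obtain ⟨cc, hcc⟩ : ∃ cc : List Unit, cc.length = c := ⟨List.replicate c (), by simp⟩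
  have hB : Poly (fun x : List Bool => List.replicate (b.eval x.length) ()) :=
    UPoly.eval (UPoly.length Poly.id) b
  refine ⟨_, isFP_gg (chr (jn J (EE A))) cc hB, fun x y hy => ?_⟩
  refine mem_gg (B := List.replicate (b.eval x.length) ()) (fun n => ?_) (fun u => ?_) ?_
  · rw [hcc]
    exact hc n
  · rw [chr_jn]
    exact chr_eq_true
  · rw [List.length_replicate]
    exact hy

end Pool.Agent.H583R2.LH
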