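import Pool.Agent.H583R2.LH.Reg
import Pool.Agent.H628R3.RO.D2

/-! Task LN: locality and accepting computations, first kind. -/

namespace Pool.Agent.H583R2.LH

open MeasureTheory Pool.Agent.NPC Pool.Agent.H628R3.RO
open Pool.Agent.H583R2.S2 (chr IsP)
open Pool.Agent.H673R2.OneTT (KA)

theorem exists_bnd : ∃ b : Polynomial ℕ, Bnd b := by
  obtain ⟨qb, hq⟩ := Pool.Agent.H673R2.OneTT.uA.out_congr
  refine ⟨qb.comp (Polynomial.C 3 * Polynomial.X + Polynomial.C 1) + Polynomial.C 1,
    fun A A' u h => ?_⟩
  unfold KA
  simp only [Set.mem_ofPred_eq]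
  refine exists_congr fun w => and_congr_right fun hw => ?_
  rw [hq A A' (pairBits u w) (3 * u.length + 1)]
  · rw [length_pairBits]
    omega
  · intro x hx
    apply h
    rw [Polynomial.eval_add, Polynomial.eval_comp, Polynomial.eval_C, Polynomial.eval_add,
      Polynomial.eval_mul, Polynomial.eval_C, Polynomial.eval_X, Polynomial.eval_C]
    omega

/-- `ers` is local -/
private theorem LN_ers {A A' : Oracle} {N : ℕ} (h : ∀ q : List Bool, q.length < 2 * N + 2 →
    A q = A' q) {q : List Bool} (hq : q.length < N) : ers A q = ers A' q := by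
  unfold ers
  rcases hp : prs q with _ | ⟨y, i⟩
  · exact h q (by omega)
  · dsimp only
    have hq' := prs_some hp
    have hl : q.length = i + y.length + 2 := by rw [hq', length_yp]
    have h1 : y ∈ Hid A ↔ y ∈ Hid A' := by
      show (∀ i < y.length, A (yp y i) = true) ↔ (∀ i < y.length, A' (yp y i) = true)
      refine forall₂_congr fun j hj => ?_
      rw [h (yp y j)]
      rw [length_yp]
      omega
    by_cases h2 : y ∈ Hid A
    · rw [if_pos h2, if_pos (h1.1 h2)]
      apply h
      rw [length_yp]
      omega
    · rw [if_neg h2, if_neg (fun h3 => h2 (h1.2 h3))]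
      exact h q (by omega)

/-- `gE` is local -/
private theorem LN_gE {b : Polynomial ℕ} (hb : Bnd b) {A A' : Oracle} {L : ℕ}
    (h : ∀ q : List Bool, q.length < 2 * (b.eval L) + L + 2 → A q = A' q) {q : List Bool}
    (hq : q.length ≤ L) : gE A q = gE A' q := by
  unfold gE
  rcases q with _ | ⟨c, q⟩
  · rfl
  · rw [List.length_cons] at hq
    cases c with
    | true => exact h q (by omega)
    | false =>
      show chr (KA (ers A)) q = chr (KA (ers A')) q
      have h1 : q ∈ KA (ers A) ↔ q ∈ KA (ers A') := by
        apply hb
        intro x hx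
        have h2 : b.eval q.length ≤ b.eval L := eval_mono b (by omega)
        refine LN_ers (N := b.eval L) (fun z hz => h z (by omega)) (by omega)
      exact decide_eq_decide.2 h1

theorem floc_accN (V : Alg) (p : Polynomial ℕ) (n : ℕ) :
    FLoc {A | Wit V p (List.replicate n true) (gE A)} := by
  obtain ⟨b, hb⟩ := exists_bnd
  obtain ⟨qb, hq⟩ := V.out_congr
  refine ⟨2 * (b.eval (qb.eval (2 * n + 1 + p.eval n))) + qb.eval (2 * n + 1 + p.eval n) + 2,
    fun A A' h => ?_⟩
  show Wit V p (List.replicate n true) (gE A) ↔ Wit V p (List.replicate n true) (gE A')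
  unfold Wit
  refine exists_congr fun w => and_congr_right fun hw => ?_
  rw [List.length_replicate] at hw
  rw [hq (gE A) (gE A') (pairBits (List.replicate n true) w) (2 * n + 1 + p.eval n)]
  · rw [length_pairBits, List.length_replicate]
    omega
  · intro x hx
    exact LN_gE hb h hx

/-- the string to whose region the string belongs -/
private def LN_own (u : List Bool) : List Bool :=
  match u with
  | [] => []
  | false :: _ => []
  | true :: q => match prs q with
    | none => []
    | some (y, _) => y

private theorem LN_own_yp (y : List Bool) (i : ℕ) : LN_own (true :: yp y i) = y := by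
  show (match prs (yp y i) with
    | none => []
    | some (y, _) => y) = y
  rw [prs_yp]

theorem touchN (V : Alg) (p : Polynomial ℕ) : ∃ q : Polynomial ℕ, ∀ (n : ℕ) (A : Oracle),
    Wit V p (List.replicate n true) (gE A) → A ∉ Ne n → ∃ U : Finset (List Bool),
      U.card ≤ q.eval n ∧ ∀ y : List Bool, y.length = n → y ∉ U →
        Wit V p (List.replicate n true) (gE (dec A [y])) := by
  classical
  obtain ⟨qb, hV⟩ := V.out_local
  refine ⟨V.p.comp (Polynomial.C 2 * Polynomial.X + Polynomial.C 1 + p), fun n A hA hN => ?_⟩
  obtain ⟨w, hw, hw'⟩ := hA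
  obtain ⟨Q, hQ1, -, hQ2⟩ := hV (gE A) (pairBits (List.replicate n true) w)
  rw [List.length_replicate] at hw
  refine ⟨Q.image LN_own, ?_, fun y hy hyU => ⟨w, by rw [List.length_replicate]; exact hw, ?_⟩⟩
  · refine Finset.card_image_le.trans (hQ1.trans ?_)
    rw [Polynomial.eval_comp]
    apply eval_mono
    rw [length_pairBits, List.length_replicate]
    simp only [Polynomial.eval_add, Polynomial.eval_mul, Polynomial.eval_C, Polynomial.eval_X]
    omega
  · rw [hQ2 (gE (dec A [y])), hw']
    intro u hu
    rcases u with _ | ⟨c, u⟩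
    · rfl
    · cases c with
      | true =>
        show dec A [y] u = A u
        apply dec_ne
        rintro i rfl
        apply hyU
        rw [Finset.mem_image]
        exact ⟨_, hu, LN_own_yp y i⟩
      | false =>
        show chr (KA (ers (dec A [y]))) u = chr (KA (ers A)) u
        rw [ers_dec]
        intro h
        exact hN ⟨y, hy, h⟩

end Pool.Agent.H583R2.LH
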