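import Pool.Agent.H583R2.LH.Defs
import Pool.Agent.H628R3.RO.A3
import Pool.Agent.NPC.Num

/-! Task NF: a normal form for nondeterministic algorithms. -/

namespace Pool.Agent.H583R2.LH

open MeasureTheory Pool.Agent.NPC Pool.Agent.H628R3.RO
open Pool.Agent.H583R2.S2 (chr IsP)
open Pool.Agent.H673R2.OneTT (KA)

/-! ### Runs (as in the file `T_NF` of helper490) -/

private theorem nf_run_some (M : Alg) (A : Oracle) (y z : List Bool) : ∀ (n : ℕ) (a0 : List Bool),
    M.run A y n a0 = some z → ∃ a : List Bool, a.length < n ∧
      (∀ i < a.length, (M.D (pairBits y (a0 ++ a.take i))).head? = some false ∧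
        a[i]? = some (A (M.D (pairBits y (a0 ++ a.take i))).tail)) ∧
      (M.D (pairBits y (a0 ++ a))).head? ≠ some false ∧ (M.D (pairBits y (a0 ++ a))).tail = z := by
  intro n
  induction n with
  | zero => intro a0 h; simp [Alg.run] at h
  | succ n ih =>
    intro a0 h
    rw [A2.run_succ] at h
    split_ifs at h with h1
    · obtain ⟨a, h2, h3, h4, h5⟩ := ih _ h
      refine ⟨A (M.D (pairBits y a0)).tail :: a, by simpa using h2, ?_, ?_, ?_⟩
      · intro i hi
        cases i with
        | zero => simpa using h1
        | succ i =>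
          have h6 := h3 i (by simpa using hi)
          simp only [List.append_assoc, List.singleton_append] at h6
          simpa using h6
      · simpa using h4
      · simpa using h5
    · refine ⟨[], by simp, by simp, by simpa using h1, ?_⟩
      simpa using h

private theorem nf_some_run (M : Alg) (A : Oracle) (y z : List Bool) : ∀ (a : List Bool) (n : ℕ)
    (a0 : List Bool), a.length < n →
      (∀ i < a.length, (M.D (pairBits y (a0 ++ a.take i))).head? = some false ∧
        a[i]? = some (A (M.D (pairBits y (a0 ++ a.take i))).tail)) →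
      (M.D (pairBits y (a0 ++ a))).head? ≠ some false → (M.D (pairBits y (a0 ++ a))).tail = z →
      M.run A y n a0 = some z := by
  intro a
  induction a with
  | nil =>
    intro n a0 hn _ h4 h5
    obtain ⟨n, rfl⟩ : ∃ m, n = m + 1 := ⟨n - 1, by simp at hn; omega⟩
    rw [A2.run_succ, if_neg (by simpa using h4)]
    simpa using h5
  | cons b a ih =>
    intro n a0 hn h3 h4 h5
    obtain ⟨n, rfl⟩ : ∃ m, n = m + 1 := ⟨n - 1, by simp at hn; omega⟩
    have h0 := h3 0 (by simp)
    simp only [List.take_zero, List.append_nil, List.getElem?_cons_zero, Option.some.injEq] at h0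
    rw [A2.run_succ, if_pos h0.1, ← h0.2]
    refine ih n _ (by simpa using hn) ?_ (by simpa using h4) (by simpa using h5)
    intro i hi
    have h6 := h3 (i + 1) (by simpa using hi)
    simpa using h6

private theorem nf_take_eq {α : Type} (l : List α) (n : ℕ) :
    (l.zip (List.replicate n ())).map Prod.fst = l.take n := by
  induction l generalizing n with
  | nil => simp
  | cons a l ih =>
    cases n with
    | zero => simp
    | succ n => simp [List.replicate_succ, ih]

private theorem nf_poly_take {α β : Type} [TEnc α] [TEnc β] {l : α → List β} {n : α → ℕ}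
    (hl : Poly l) (hn : Poly n) : Poly (fun a => (l a).take (n a)) := by
  have h : UPoly (fun a => Min.min (n a) (l a).length) :=
    UPoly.of_le (Poly.min hn (Poly.length hl)) (UPoly.length hl) (fun a => min_le_right _ _)
  refine (NPC.Poly.map (F := fun _ p => p.1) (Poly.zip hl h)
    (Poly.fst (Poly.snd Poly.id))).congr ?_
  intro a
  change ((l a).zip (List.replicate (Min.min (n a) (l a).length) ())).map Prod.fst = _
  rw [nf_take_eq]
  rcases le_total (n a) (l a).length with h1 | h1
  · rw [min_eq_left h1]
  · rw [min_eq_right h1, List.take_length, List.take_of_length_le h1]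

private theorem nf_poly_eval {α β : Type} [TEnc α] [TEnc β] {l : α → List β} (hl : Poly l)
    (p : Polynomial ℕ) : Poly (fun a => p.eval (l a).length) :=
  ((UPoly.length hl).eval p).toPoly

namespace NF

/-- the input -/
def xx (z : List Bool) : List Bool := (unpair z).1
/-- the witness -/
def yy (z : List Bool) : List Bool := (unpair (unpair z).2).1
/-- the answers -/
def aa (z : List Bool) : List Bool := (unpair (unpair z).2).2
/-- the action after `i` answers -/
def act (D : List Bool → List Bool) (z : List Bool) (i : ℕ) : List Bool :=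
  D (pairBits (pairBits (xx z) (yy z)) ((aa z).take i))
/-- the queries -/
def qs (D : List Bool → List Bool) (z : List Bool) : List (List Bool) :=
  (List.range (aa z).length).map (fun i => (act D z i).tail)
/-- the test -/
noncomputable def tst (D : List Bool → List Bool) (p P : Polynomial ℕ)
    (s : List Bool × List Bool) : Bool :=
  decide ((yy s.1).length ≤ p.eval (xx s.1).length) &&
    (decide ((aa s.1).length < P.eval (pairBits (xx s.1) (yy s.1)).length) &&
    (decide (act D s.1 (aa s.1).length = [true, true]) &&
    (decide (s.2 = aa s.1) &&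
    (List.range (aa s.1).length).all (fun i => decide ((act D s.1 i).head? = some false)))))

theorem poly_xx : Poly xx := Poly.fst poly_unpair
theorem poly_yy : Poly yy := Poly.fst (poly_unpair.comp (Poly.snd poly_unpair))
theorem poly_aa : Poly aa := Poly.snd (poly_unpair.comp (Poly.snd poly_unpair))

theorem poly_act {D : List Bool → List Bool} (hD : Poly D) {α : Type} [TEnc α]
    {z : α → List Bool} {i : α → ℕ} (hz : Poly z) (hi : Poly i) :
    Poly (fun a => act D (z a) (i a)) :=
  hD.comp (H622R2.poly_pairBits (H622R2.poly_pairBits (poly_xx.comp hz) (poly_yy.comp hz))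
    (nf_poly_take (poly_aa.comp hz) hi))

theorem poly_qs {D : List Bool → List Bool} (hD : Poly D) : Poly (qs D) :=
  NPC.Poly.map (l := fun z : List Bool => List.range (aa z).length)
    (F := fun (z : List Bool) (i : ℕ) => (act D z i).tail)
    (Poly.range_length poly_aa) (Poly.tail (poly_act hD (Poly.fst Poly.id) (Poly.snd Poly.id)))

theorem poly_tst {D : List Bool → List Bool} (hD : Poly D) (p P : Polynomial ℕ) :
    Poly (tst D p P) := by
  have hz : Poly (fun s : List Bool × List Bool => s.1) := Poly.fst Poly.id
  have hx : Poly (fun s : List Bool × List Bool => xx s.1) := poly_xx.comp hz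
  have hy : Poly (fun s : List Bool × List Bool => yy s.1) := poly_yy.comp hz
  have ha : Poly (fun s : List Bool × List Bool => aa s.1) := poly_aa.comp hz
  have hn : Poly (fun s : List Bool × List Bool => (aa s.1).length) := Poly.length ha
  exact Poly.and (Poly.decide_le (Poly.length hy) (nf_poly_eval hx p))
    (Poly.and (Poly.decide_lt hn (nf_poly_eval (H622R2.poly_pairBits hx hy) P))
      (Poly.and (Poly.decide_eq (poly_act hD hz hn) (NPC.Poly.const _))
        (Poly.and (Poly.decide_eq (Poly.snd Poly.id) ha)
          (Poly.all (l := fun s : List Bool × List Bool => List.range (aa s.1).length)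
            (p := fun s i => decide ((act D s.1 i).head? = some false)) (Poly.range_length ha)
            (Poly.decide_eq (Poly.head? (poly_act hD (Poly.fst (Poly.fst Poly.id))
              (Poly.snd Poly.id))) (NPC.Poly.const _))))))

theorem tst_iff (D : List Bool → List Bool) (p P : Polynomial ℕ) (A : Oracle)
    (z : List Bool) :
    tst D p P (z, (qs D z).map A) = true ↔
      (yy z).length ≤ p.eval (xx z).length ∧
      (aa z).length < P.eval (pairBits (xx z) (yy z)).length ∧
      D (pairBits (pairBits (xx z) (yy z)) (aa z)) = [true, true] ∧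
      ∀ i < (aa z).length,
        (D (pairBits (pairBits (xx z) (yy z)) ((aa z).take i))).head? = some false ∧
        (aa z)[i]? = some (A (D (pairBits (pairBits (xx z) (yy z)) ((aa z).take i))).tail) := by
  have h1 : (qs D z).map A = aa z ↔ ∀ i < (aa z).length, (aa z)[i]? = some (A (act D z i).tail) := by
    constructor
    · intro h i hi
      rw [← h]
      simp [qs, hi]
    · intro h
      apply List.ext_getElem?
      intro i
      by_cases hi : i < (aa z).length
      · rw [h i hi]
        simp [qs, hi]
      · rw [List.getElem?_eq_none (by simpa [qs] using hi),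
          List.getElem?_eq_none (by simpa using hi)]
  unfold tst
  simp only [Bool.and_eq_true, decide_eq_true_eq, List.all_eq_true, List.mem_range, h1]
  simp only [act, List.take_length]
  constructor
  · rintro ⟨h2, h3, h4, h5, h6⟩
    exact ⟨h2, h3, h4, fun i hi => ⟨h6 i hi, h5 i hi⟩⟩
  · rintro ⟨h2, h3, h4, h5⟩
    exact ⟨h2, h3, h4, fun i hi => (h5 i hi).2, fun i hi => (h5 i hi).1⟩

end NF

theorem nf (V : Alg) (p : Polynomial ℕ) : ∃ (Q : List Bool → List (List Bool))
    (H : List Bool × List Bool → Bool) (r : Polynomial ℕ), Poly Q ∧ Poly H ∧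
    ∀ (A : Oracle) (x : List Bool), Wit V p x A ↔ ∃ w : List Bool, w.length ≤ r.eval x.length ∧
      H (pairBits x w, (Q (pairBits x w)).map A) = true := by
  have hD : Poly V.D := H622R2.poly_of_polyTime V.poly
  refine ⟨NF.qs V.D, NF.tst V.D p V.p,
    2 * p + 1 + V.p.comp (2 * Polynomial.X + 1 + p), NF.poly_qs hD, NF.poly_tst hD p V.p,
    fun A x => ?_⟩
  constructor
  · rintro ⟨y, hy, h⟩
    obtain ⟨a, h1, h2, h3, h4⟩ := nf_run_some V A (pairBits x y) [true] _ [] h
    simp only [List.nil_append] at h2 h3 h4
    have h5 : V.D (pairBits (pairBits x y) a) = [true, true] := by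
      rcases hq : V.D (pairBits (pairBits x y) a) with _ | ⟨c, q⟩
      · rw [hq] at h4; simp at h4
      · rw [hq] at h3 h4
        cases c with
        | false => simp at h3
        | true => simp at h4; rw [h4]
    have hlen := length_pairBits x y
    have hlen2 := length_pairBits y a
    have hxx : NF.xx (pairBits x (pairBits y a)) = x := by
      simp only [NF.xx, unpair_pairBits]
    have hyy : NF.yy (pairBits x (pairBits y a)) = y := by
      simp only [NF.yy, unpair_pairBits]
    have haa : NF.aa (pairBits x (pairBits y a)) = a := by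
      simp only [NF.aa, unpair_pairBits]
    refine ⟨pairBits y a, ?_, ?_⟩
    · rw [hlen2]
      have h6 : V.p.eval (pairBits x y).length ≤
          V.p.eval (2 * x.length + 1 + p.eval x.length) := eval_mono V.p (by omega)
      simp only [Polynomial.eval_add, Polynomial.eval_mul, Polynomial.eval_ofNat,
        Polynomial.eval_one, Polynomial.eval_comp, Polynomial.eval_X]
      omega
    · rw [NF.tst_iff, hxx, hyy, haa]
      exact ⟨hy, h1, h5, h2⟩
  · rintro ⟨w, hw, h⟩
    rw [NF.tst_iff] at h
    have hxx : NF.xx (pairBits x w) = x := by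
      simp only [NF.xx, unpair_pairBits]
    rw [hxx] at h
    obtain ⟨h1, h2, h3, h4⟩ := h
    refine ⟨NF.yy (pairBits x w), h1, ?_⟩
    refine nf_some_run V A _ [true] (NF.aa (pairBits x w)) _ [] h2 ?_ ?_ ?_
    · simpa only [List.nil_append] using h4
    · rw [List.nil_append, h3]; simp
    · rw [List.nil_append, h3]; rfl

theorem isNP_of_nf {A : Oracle} {L : Set (List Bool)} {Q : List Bool → List (List Bool)}
    {H : List Bool × List Bool → Bool} {r : Polynomial ℕ} (hQ : Poly Q) (hH : Poly H)
    (h : ∀ x, x ∈ L ↔ ∃ w : List Bool, w.length ≤ r.eval x.length ∧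
      H (pairBits x w, (Q (pairBits x w)).map A) = true) : IsNP A L := by
  refine ⟨fun z => [H (z, (Q z).map A)], r,
    IsFP.tt (H := fun s => [H s]) hQ (Poly.cons hH (NPC.Poly.const [])), fun x => ?_⟩
  rw [h x]
  simp

theorem isNP_wit (V : Alg) (p : Polynomial ℕ) (A : Oracle) : IsNP A {x | Wit V p x A} := by
  obtain ⟨Q, H, r, hQ, hH, h⟩ := nf V p
  exact isNP_of_nf hQ hH fun x => h A x

theorem exists_wit {A : Oracle} {L : Set (List Bool)} (h : IsNP A L) :
    ∃ (V : Alg) (p : Polynomial ℕ), ∀ x, x ∈ L ↔ Wit V p x A := by
  obtain ⟨F, p, ⟨V, hV⟩, hL⟩ := h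
  refine ⟨V, p, fun x => ?_⟩
  rw [hL x]
  unfold Wit
  simp only [hV, Option.some.injEq]

end Pool.Agent.H583R2.LH
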