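import Pool.Agent.H583R2.LH.Defs
import Pool.Agent.H628R3.RO.M2
import Pool.Agent.H628R3.RO.D2

/-! Task SQ: many stages. -/

namespace Pool.Agent.H583R2.LH

open MeasureTheory Pool.Agent.NPC Pool.Agent.H628R3.RO
open Pool.Agent.H583R2.S2 (chr IsP)
open Pool.Agent.H673R2.OneTT (KA)

private theorem SQ_stage {C : ℕ → Set Oracle} (h : ∀ ε : ℝ, 0 < ε → ∀ N : ℕ, ∃ n ≥ N, FLoc (C n) ∧
    ∀ S : Set Oracle, Loc {x | x.length < n} S → prob (S ∩ C n) ≤ 7 / 8 * prob S + ε)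
    {δ : ℝ} (hδ : 0 < δ) (k : ℕ) :
    ∃ S : Set Oracle, FLoc S ∧ {A | ∀ n, A ∈ C n} ⊆ S ∧ prob S ≤ (7 / 8) ^ k + 8 * δ := by
  induction k with
  | zero =>
    refine ⟨Set.univ, ⟨0, fun A A' _ => by simp⟩, Set.subset_univ _, ?_⟩
    have : prob Set.univ = 1 := by
      unfold prob
      simp
    rw [this]
    norm_num
    linarith
  | succ k ih =>
    obtain ⟨S, ⟨N, hN⟩, hsub, hS⟩ := ih
    obtain ⟨n, hn, ⟨N', hN'⟩, hC⟩ := h δ hδ N
    refine ⟨S ∩ C n, ⟨max N N', ?_⟩, ?_, ?_⟩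
    · refine M2.Loc.inter (M2.Loc.mono hN ?_) (M2.Loc.mono hN' ?_)
      · intro q (hq : q.length < N)
        exact lt_of_lt_of_le hq (le_max_left _ _)
      · intro q (hq : q.length < N')
        exact lt_of_lt_of_le hq (le_max_right _ _)
    · intro A hA
      exact ⟨hsub hA, hA n⟩
    · have h1 := hC S (M2.Loc.mono hN fun q (hq : q.length < N) => lt_of_lt_of_le hq hn)
      calc prob (S ∩ C n) ≤ 7 / 8 * prob S + δ := h1
        _ ≤ 7 / 8 * ((7 / 8) ^ k + 8 * δ) + δ := by linarith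
        _ = (7 / 8) ^ (k + 1) + 8 * δ := by ring

theorem seq_zero {C : ℕ → Set Oracle} (h : ∀ ε : ℝ, 0 < ε → ∀ N : ℕ, ∃ n ≥ N, FLoc (C n) ∧
    ∀ S : Set Oracle, Loc {x | x.length < n} S → prob (S ∩ C n) ≤ 7 / 8 * prob S + ε) :
    ∀ᵐ A ∂randomOracle, ∃ n, A ∉ C n := by
  rw [ae_iff]
  have h0 : {A : Oracle | ¬ ∃ n, A ∉ C n} = {A | ∀ n, A ∈ C n} := by
    ext A
    simp
  rw [h0]
  have h1 : randomOracle.real {A | ∀ n, A ∈ C n} ≤ 0 := by
    refine le_of_forall_pos_le_add fun ε hε => ?_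
    rw [zero_add]
    obtain ⟨k, hk⟩ := exists_pow_lt_of_lt_one (show (0 : ℝ) < ε / 2 by linarith)
      (show (7 / 8 : ℝ) < 1 by norm_num)
    obtain ⟨S, -, hsub, hS⟩ := SQ_stage h (show (0 : ℝ) < ε / 16 by linarith) k
    have h2 : prob {A | ∀ n, A ∈ C n} ≤ prob S := M2.prob_mono hsub
    unfold prob at h2 hS
    linarith
  have h2 : randomOracle.real {A | ∀ n, A ∈ C n} = 0 :=
    le_antisymm h1 measureReal_nonneg
  exact (measureReal_eq_zero_iff (by finiteness)).1 h2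

end Pool.Agent.H583R2.LH
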