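import Pool.Agent.H583R2.LH.Exc
import Pool.Agent.H583R2.LH.Seq
import Pool.Agent.H583R2.LH.LocN
import Pool.Agent.H583R2.LH.NF

/-! Task CN: the lengths of hidden strings, nondeterministic algorithms (helper501). -/

namespace Pool.Agent.H583R2.LH

open MeasureTheory Pool.Agent.NPC Pool.Agent.H628R3.RO
open Pool.Agent.H583R2.S2 (chr IsP)
open Pool.Agent.H673R2.OneTT (KA)

namespace CNaux

theorem poly_small (q : Polynomial ℕ) (N : ℕ) :
    ∃ n ≥ N, 1 ≤ n ∧ ((q.eval n : ℕ) : ℝ) / 2 ^ n ≤ 1 / 8 := by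
  have h1 : Filter.Tendsto (fun n : ℕ => ((q.eval n : ℕ) : ℝ) / 2 ^ n) Filter.atTop (nhds 0) := by
    have h2 : ∀ q : Polynomial ℕ,
        Filter.Tendsto (fun n : ℕ => ((q.eval n : ℕ) : ℝ) / 2 ^ n) Filter.atTop (nhds 0) := by
      intro q
      induction q using Polynomial.induction_on' with
      | add p q hp hq =>
        have h := hp.add hq
        rw [add_zero] at h
        refine h.congr fun n => ?_
        rw [Polynomial.eval_add]
        push_cast
        rw [add_div]
      | monomial k a =>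
        have h := (tendsto_pow_const_div_const_pow_of_one_lt k (one_lt_two (α := ℝ))).const_mul (a : ℝ)
        rw [mul_zero] at h
        refine h.congr fun n => ?_
        rw [Polynomial.eval_monomial]
        push_cast
        rw [mul_div_assoc]
    exact h2 q
  have h3 := h1.eventually (ge_mem_nhds (show (0 : ℝ) < 1 / 8 by norm_num))
  obtain ⟨n, hn⟩ := ((h3.and (Filter.eventually_ge_atTop N)).and
    (Filter.eventually_ge_atTop 1)).exists
  exact ⟨n, hn.1.2, hn.2, hn.1.1⟩

theorem countable_poly : Countable (Polynomial ℕ) := by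
  have : Function.Injective (fun p : Polynomial ℕ => (p.toFinsupp.coeff : ℕ →₀ ℕ)) := by
    intro p q h
    ext n
    exact DFunLike.congr_fun h n
  exact this.countable

theorem floc_iff {S T : Set Oracle} (hS : FLoc S) (hT : FLoc T) : FLoc {A | A ∈ S ↔ A ∉ T} := by
  obtain ⟨N₁, h₁⟩ := hS
  obtain ⟨N₂, h₂⟩ := hT
  refine ⟨max N₁ N₂, ?_⟩
  intro A A' h
  have e1 := h₁ A A' (fun x (hx : x.length < N₁) => h x (show x.length < max N₁ N₂ from
    lt_of_lt_of_le hx (le_max_left _ _)))
  have e2 := h₂ A A' (fun x (hx : x.length < N₂) => h x (show x.length < max N₁ N₂ from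
    lt_of_lt_of_le hx (le_max_right _ _)))
  show (A ∈ S ↔ A ∉ T) ↔ (A' ∈ S ↔ A' ∉ T)
  rw [e1, e2]

theorem one (V : Alg) (p : Polynomial ℕ) : ∀ᵐ A ∂randomOracle, ∃ n, A ∉ CorN V p n := by
  apply seq_zero
  intro ε hε N
  obtain ⟨q, hq⟩ := touchN V p
  obtain ⟨n, hnN, hn1, hqn⟩ := poly_small q N
  refine ⟨n, hnN, ?_, ?_⟩
  · exact floc_iff (floc_accN V p n) (floc_Ne n)
  · intro S hS
    have h1 := exc (q := q.eval n) hn1 hS (floc_accN V p n) (fun A hA hne => hq n A hA hne)
    have h2 : prob (S ∩ CorN V p n) ≤ (3 / 4 + ((q.eval n : ℕ) : ℝ) / 2 ^ n) * prob S := h1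
    have h3 : 0 ≤ prob S := measureReal_nonneg
    refine h2.trans ?_
    have h4 : (3 / 4 + ((q.eval n : ℕ) : ℝ) / 2 ^ n) * prob S ≤ 7 / 8 * prob S :=
      mul_le_mul_of_nonneg_right (by linarith) h3
    linarith

end CNaux

theorem not_coNP : ∀ᵐ A ∂randomOracle, ¬ IsNP (gE A) (TT A)ᶜ := by
  have hc : Countable (Polynomial ℕ) := CNaux.countable_poly
  have h1 : ∀ᵐ A ∂randomOracle, ∀ V : Alg, ∀ p : Polynomial ℕ, ∃ n, A ∉ CorN V p n := by
    rw [ae_all_iff]
    intro V
    rw [ae_all_iff]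
    intro p
    exact CNaux.one V p
  filter_upwards [h1] with A hA hNP
  obtain ⟨V, p, hVp⟩ := exists_wit hNP
  obtain ⟨n, hn⟩ := hA V p
  apply hn
  have h2 : List.replicate n true ∈ TT A ↔ A ∈ Ne n := by
    constructor
    · rintro ⟨m, hm, hA'⟩
      have h3 : n = m := by
        have h4 := congrArg List.length hm
        simpa using h4
      rw [h3]
      exact hA'
    · intro h
      exact ⟨n, rfl, h⟩
  show Wit V p (List.replicate n true) (gE A) ↔ A ∉ Ne n
  rw [← hVp, Set.mem_compl_iff, h2]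

end Pool.Agent.H583R2.LH
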