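import Pool.Agent.H583R2.LH.Reg
import Pool.Agent.H628R3.RO.D2

/-! Task BL: computations without long keys. -/

namespace Pool.Agent.H583R2.LH

open MeasureTheory Pool.Agent.NPC Pool.Agent.H628R3.RO
open Pool.Agent.H583R2.S2 (chr IsP)
open Pool.Agent.H673R2.OneTT (KA)

theorem floc_accK {b : Polynomial ℕ} (hb : Bnd b) (M : Alg) (n : ℕ) :
    FLoc {A | M.out (gK' b n A) (List.replicate n true) ≠ some [true]} := by
  sorry

theorem floc_CorK {b : Polynomial ℕ} (hb : Bnd b) (M : Alg) (n : ℕ) :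
    FLoc (CorK b M n) := by
  sorry

theorem touchK {b : Polynomial ℕ} (hb : Bnd b) (M : Alg) (n : ℕ) (A : Oracle)
    (h : M.out (gK' b n A) (List.replicate n true) ≠ some [true]) (hA : A ∉ Ne n) :
    ∃ U : Finset (List Bool), U.card ≤ M.p.eval n ∧ ∀ y : List Bool, y.length = n → y ∉ U →
      M.out (gK' b n (dec A [y])) (List.replicate n true) ≠ some [true] := by
  sorry

end Pool.Agent.H583R2.LH
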