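import Pool.Agent.H583R2.LH.Fam
import Pool.Agent.H673R2.OneOne.Fp

/-! Task CL: closure properties. -/

namespace Pool.Agent.H583R2.LH

open MeasureTheory Pool.Agent.NPC Pool.Agent.H628R3.RO
open Pool.Agent.H583R2.S2 (chr IsP)
open Pool.Agent.H673R2.OneTT (KA)

/-- the join of two sets -/
def jn (K L : Set (List Bool)) : Set (List Bool) := {u | join (chr K) (chr L) u = true}

theorem chr_eq_true {K : Set (List Bool)} {u : List Bool} : chr K u = true ↔ u ∈ K := by
  simp [chr]

theorem chr_jn (K L : Set (List Bool)) : chr (jn K L) = join (chr K) (chr L) := by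
  funext u
  simp [chr, jn]

private theorem cl_poly {O : Oracle} {b : List Bool → Bool} (hb : Poly b) :
    IsP O {u | b u = true} :=
  ⟨fun u => [b u], IsFP.of_poly (Poly.cons hb (NPC.Poly.const [])), fun x => by simp⟩

private theorem cl_head {O : Oracle} (c : Bool) : IsP O {u : List Bool | u.head? = some c} := by
  have h := cl_poly (O := O) (b := fun u => decide (u.head? = some c))
    (Poly.decide_eq (Poly.head? Poly.id) (NPC.Poly.const (some c)))
  have e : {u : List Bool | u.head? = some c} =
      {u | (fun u : List Bool => decide (u.head? = some c)) u = true} := by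
    ext u
    simp
  rw [e]
  exact h

private theorem cl_nil {O : Oracle} : IsP O {u : List Bool | u = []} := by
  have h := cl_poly (O := O) (b := fun u => decide (u = []))
    (Poly.decide_eq Poly.id (NPC.Poly.const []))
  have e : {u : List Bool | u = []} = {u | (fun u : List Bool => decide (u = [])) u = true} := by
    ext u
    simp
  rw [e]
  exact h

theorem isNP_of_isP {O : Oracle} {L : Set (List Bool)} (h : IsP O L) : IsNP O L := by
  obtain ⟨F, hF, h⟩ := h
  refine ⟨fun u => F (unpair u).1, 0, IsFP.comp hF (IsFP.of_poly (Poly.fst poly_unpair)), ?_⟩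
  intro x
  rw [h x]
  constructor
  · intro hx
    refine ⟨[], by simp, ?_⟩
    simp only [unpair_pairBits]
    exact hx
  · rintro ⟨w, _, hw⟩
    simp only [unpair_pairBits] at hw
    exact hw

theorem isP_compl {O : Oracle} {L : Set (List Bool)} (h : IsP O L) : IsP O Lᶜ := by
  obtain ⟨F, hF, h⟩ := h
  refine ⟨fun x => (fun y : List Bool => if y = [true] then [false] else [true]) (F x),
    IsFP.comp (IsFP.of_poly (Poly.ite (Poly.decide_eq Poly.id (NPC.Poly.const [true]))
      (NPC.Poly.const [false]) (NPC.Poly.const [true]))) hF, ?_⟩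
  intro x
  rw [Set.mem_compl_iff, h x]
  by_cases hx : F x = [true]
  · simp [hx]
  · simp [hx]

theorem isP_pre {O : Oracle} {F : List Bool → List Bool} (h : IsFP O F) :
    IsP O {x | O (F x) = true} := by
  have h1 : IsFP O (fun q : List Bool => [O q]) := by
    have h2 := IsFP.tt (A := O) (Q := fun q => [q]) (H := fun p => p.2)
      (Poly.cons Poly.id (NPC.Poly.const [])) (Poly.snd Poly.id)
    exact h2
  exact ⟨fun x => [O (F x)], IsFP.comp h1 h, fun x => by simp⟩

theorem isP_self (K : Set (List Bool)) : IsP (chr K) K := by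
  have h := isP_pre (O := chr K) (F := fun x => x) (IsFP.of_poly Poly.id)
  have e : {x | chr K ((fun x => x) x) = true} = K := by
    ext x
    exact chr_eq_true
  rw [e] at h
  exact h

theorem isP_left (A B : Oracle) : IsP (join A B) {u | A u = true} :=
  isP_pre (O := join A B) (F := fun x => true :: x)
    (IsFP.of_poly (Poly.cons (NPC.Poly.const true) Poly.id))

theorem isP_right (A B : Oracle) : IsP (join A B) {u | B u = true} :=
  isP_pre (O := join A B) (F := fun x => false :: x)
    (IsFP.of_poly (Poly.cons (NPC.Poly.const false) Poly.id))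

theorem isNP_pre {O : Oracle} {F : List Bool → List Bool} {L : Set (List Bool)} (hF : IsFP O F)
    (hL : IsNP O L) : IsNP O {x | F x ∈ L} :=
  Pool.Agent.H673R2.OneOne.IsNP.red ⟨F, hF, fun _ => Iff.rfl⟩ hL

private theorem cl_part {O : Oracle} (c : Bool) {L : Set (List Bool)} (hL : IsNP O L) :
    IsNP O ({u | u.head? = some c} ∩ {u | u.tail ∈ L}) :=
  Pool.Agent.H673R2.OneOne.IsNP.inter (isNP_of_isP (cl_head c))
    (isNP_pre (IsFP.of_poly (Poly.tail Poly.id)) hL)

theorem np_join {A B O : Oracle} (hA1 : IsNP O {u | A u = true}) (hA0 : IsNP O {u | A u = false})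
    (hB1 : IsNP O {u | B u = true}) (hB0 : IsNP O {u | B u = false}) :
    IsNP O {u | join A B u = true} ∧ IsNP O {u | join A B u = false} := by
  constructor
  · have h := Pool.Agent.H673R2.OneOne.IsNP.union (cl_part true hA1) (cl_part false hB1)
    have e : {u | join A B u = true} =
        ({u : List Bool | u.head? = some true} ∩ {u | u.tail ∈ {u | A u = true}}) ∪
        ({u : List Bool | u.head? = some false} ∩ {u | u.tail ∈ {u | B u = true}}) := by
      ext u
      rcases u with _ | ⟨b, u⟩
      · simp [join]
      · cases b <;> simp [join]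
    rw [e]
    exact h
  · have h := Pool.Agent.H673R2.OneOne.IsNP.union (isNP_of_isP (O := O) cl_nil)
      (Pool.Agent.H673R2.OneOne.IsNP.union (cl_part true hA0) (cl_part false hB0))
    have e : {u | join A B u = false} = {u : List Bool | u = []} ∪
        (({u : List Bool | u.head? = some true} ∩ {u | u.tail ∈ {u | A u = false}}) ∪
        ({u : List Bool | u.head? = some false} ∩ {u | u.tail ∈ {u | B u = false}})) := by
      ext u
      rcases u with _ | ⟨b, u⟩
      · simp [join]
      · cases b <;> simp [join]
    rw [e]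
    exact h

theorem isNP_jn {O : Oracle} {K L : Set (List Bool)} (hK : IsNP O K) (hL : IsNP O L) :
    IsNP O (jn K L) := by
  have h := Pool.Agent.H673R2.OneOne.IsNP.union (cl_part true hK) (cl_part false hL)
  have e : jn K L = ({u : List Bool | u.head? = some true} ∩ {u | u.tail ∈ K}) ∪
      ({u : List Bool | u.head? = some false} ∩ {u | u.tail ∈ L}) := by
    ext u
    unfold jn
    rcases u with _ | ⟨b, u⟩
    · simp [join]
    · cases b <;> simp [join, chr_eq_true]
  rw [e]
  exact h

theorem isNP_left {A B : Oracle} {L : Set (List Bool)} (h : IsNP A L) : IsNP (join A B) L := by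
  refine np_sub h (isNP_of_isP (isP_left A B)) ?_
  have h1 := isNP_of_isP (isP_compl (isP_left A B))
  have e : {u | A u = false} = {u | A u = true}ᶜ := by
    ext u
    simp
  rw [e]
  exact h1

end Pool.Agent.H583R2.LH
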