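import Pool.Agent.H583R2.LH.Reg
import Pool.Agent.H628R3.RO.D2
import Pool.Agent.H628R3.RO.M2

/-! Task BD: long keys are not found. -/

namespace Pool.Agent.H583R2.LH

open MeasureTheory Pool.Agent.NPC Pool.Agent.H628R3.RO
open Pool.Agent.H583R2.S2 (chr IsP)
open Pool.Agent.H673R2.OneTT (KA)

theorem prob_Bd {b : Polynomial ℕ} (hb : Bnd b) (M : Alg) (n : ℕ) :
    prob (Bd b M n) ≤ M.p.eval n * (1 / 2) ^ (n / 2) := by
  sorry

end Pool.Agent.H583R2.LH
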