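import Pool.Agent.H583R2.LH.Exc
import Pool.Agent.H583R2.LH.Seq
import Pool.Agent.H583R2.LH.Blind
import Pool.Agent.H583R2.LH.PrBd

/-! Task CK: the lengths of hidden strings, algorithms with keys. -/

namespace Pool.Agent.H583R2.LH

open MeasureTheory Pool.Agent.NPC Pool.Agent.H628R3.RO
open Pool.Agent.H583R2.S2 (chr IsP)
open Pool.Agent.H673R2.OneTT (KA)

theorem not_P {b : Polynomial ℕ} (hb : Bnd b) : ∀ᵐ A ∂randomOracle, ¬ IsP (gK b A) (TT A) := by
  sorry

end Pool.Agent.H583R2.LH
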