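import Pool.Agent.H583R2.S2.Defs
import Pool.Agent.H673R2.OneTT.Kset

/-!
# The first levels of the refined low and high hierarchies relative to an oracle
-/

namespace Pool.Agent.H583R2.LH

open MeasureTheory Pool.Agent.NPC Pool.Agent.H628R3.RO
open Pool.Agent.H583R2.S2 (chr IsP)
open Pool.Agent.H673R2.OneTT (KA)

/-- the join of two oracles -/
def join (A B : Oracle) : Oracle
  | [] => false
  | true :: q => A q
  | false :: q => B q

/-- the classes `Σ_k(A)` of the polynomial hierarchy relative to `A` (`Σ_0(A) = P(A)`) -/
def Sig (A : Oracle) : ℕ → Set (Set (List Bool))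
  | 0 => {L | IsP A L}
  | 1 => {L | IsNP A L}
  | k + 2 => {L | ∃ K ∈ Sig A (k + 1), IsNP (chr K) L}

/-- the classes `Δ_k(A)` of the polynomial hierarchy relative to `A` (`Δ_1(A) = P(A)`) -/
def Del (A : Oracle) : ℕ → Set (Set (List Bool))
  | 0 => {L | IsP A L}
  | 1 => {L | IsP A L}
  | k + 2 => {L | ∃ K ∈ Sig A (k + 1), IsP (chr K) L}

/-- level `k` of the low hierarchy relative to `R`: the sets `L` in `NP(R)` such that
`Σ_k(R ⊕ L)` is contained in `Σ_k(R)` -/
def Low (R : Oracle) (k : ℕ) : Set (Set (List Bool)) :=
  {L | L ∈ Sig R 1 ∧ Sig (join R (chr L)) k ⊆ Sig R k}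

/-- level `k` of the refined low hierarchy relative to `R`: the sets `L` in `NP(R)` such that
`Δ_k(R ⊕ L)` is contained in `Δ_k(R)` -/
def LowD (R : Oracle) (k : ℕ) : Set (Set (List Bool)) :=
  {L | L ∈ Sig R 1 ∧ Del (join R (chr L)) k ⊆ Del R k}

/-- level `k ≥ 1` of the high hierarchy relative to `R`: the sets `L` in `NP(R)` such that
`Σ_k(R ⊕ L)` contains `Σ_(k+1)(R)` -/
def High (R : Oracle) (k : ℕ) : Set (Set (List Bool)) :=
  {L | L ∈ Sig R 1 ∧ Sig R (k + 1) ⊆ Sig (join R (chr L)) k}

/-- level `k ≥ 1` of the refined high hierarchy relative to `R`: the sets `L` in `NP(R)` such that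
`Δ_k(R ⊕ L)` contains `Δ_(k+1)(R)` -/
def HighD (R : Oracle) (k : ℕ) : Set (Set (List Bool)) :=
  {L | L ∈ Sig R 1 ∧ Del R (k + 1) ⊆ Del (join R (chr L)) k}

/-! ### Hidden strings

The region of a string `y` is the infinite sequence of the bits of the oracle at the strings
`yp y i`. The string is hidden if its region begins with `|y|` ones. If these ones are erased (and
the rest of the region is shifted), then there is no trace of them. -/

/-- the string where bit `i` of the region of `y` is found -/
def yp (y : List Bool) (i : ℕ) : List Bool := pos 0 i y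

/-- the hidden strings -/
def Hid (A : Oracle) : Set (List Bool) := {y | ∀ i < y.length, A (yp y i) = true}

/-- some string of length `n` is hidden -/
def Ne (n : ℕ) : Set Oracle := {A | ∃ y : List Bool, y.length = n ∧ y ∈ Hid A}

/-- the lengths of hidden strings, in unary -/
def TT (A : Oracle) : Set (List Bool) := {x | ∃ n, x = List.replicate n true ∧ A ∈ Ne n}

/-- find out whether a string is of the form `yp y i` -/
def prs (q : List Bool) : Option (List Bool × ℕ) :=
  if q.head? = some false ∧ lvl q.tail < q.tail.length then
    some (q.tail.drop (lvl q.tail + 1), lvl q.tail) else none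

open Classical in
/-- the hidden strings are erased -/
noncomputable def ers (A : Oracle) : Oracle := fun q =>
  match prs q with
  | none => A q
  | some (y, i) => if y ∈ Hid A then A (yp y (i + y.length)) else A q

/-- the strings in the list `Y` are made hidden (again) -/
def dec (A : Oracle) (Y : List (List Bool)) : Oracle := fun q =>
  match prs q with
  | none => A q
  | some (y, i) => if y ∈ Y then (if i < y.length then true else A (yp y (i - y.length))) else A q

/-- delete the first bits of the region of `y` -/
def del (y : List Bool) (A : Oracle) : Oracle := fun q =>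
  match prs q with
  | none => A q
  | some (y', i) => if y' = y then A (yp y (i + y.length)) else A q

/-- the oracle with the complete set for the oracle in which the hidden strings are erased -/
noncomputable def gE (A : Oracle) : Oracle := join A (chr (KA (ers A)))

/-- the verifier `V` is right on the input `1 ^ n` for the complement of `TT A` -/
def CorN (V : Alg) (p : Polynomial ℕ) (n : ℕ) : Set Oracle :=
  {A | Wit V p (List.replicate n true) (gE A) ↔ A ∉ Ne n}

/-! ### Keys -/

/-- the string where bit `i` of the region of `z` is found, second kind -/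
def zp (z : List Bool) (i : ℕ) : List Bool := pos 1 i z

/-- the keys -/
def Key (A : Oracle) : Set (List Bool) := {z | ∀ i, 2 * i < z.length → A (zp z i) = true}

/-- the set `KA A` is accessible for those who have a key of length at least `b.eval |u|` -/
def K3 (b : Polynomial ℕ) (A : Oracle) : Set (List Bool) :=
  {v | ∃ u z : List Bool, v = pairBits u z ∧ b.eval u.length ≤ z.length ∧ z ∈ Key A ∧ u ∈ KA A}

/-- the part of `K3` with keys of length less than `m` -/
def K3' (b : Polynomial ℕ) (m : ℕ) (A : Oracle) : Set (List Bool) :=
  {v | ∃ u z : List Bool, v = pairBits u z ∧ b.eval u.length ≤ z.length ∧ z ∈ Key A ∧ u ∈ KA A ∧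
    z.length < m}

/-- the oracle with the set `K3` -/
noncomputable def gK (b : Polynomial ℕ) (A : Oracle) : Oracle := join A (chr (K3 b A))

/-- the oracle with the set `K3'` -/
noncomputable def gK' (b : Polynomial ℕ) (m : ℕ) (A : Oracle) : Oracle := join A (chr (K3' b m A))

/-- the algorithm `M` is right on the input `1 ^ n` for the set `TT A` -/
def CorK (b : Polynomial ℕ) (M : Alg) (n : ℕ) : Set Oracle :=
  {A | M.out (gK b A) (List.replicate n true) ≠ some [true] ↔ A ∉ Ne n}

/-- the algorithm finds a long key -/
def Bd (b : Polynomial ℕ) (M : Alg) (n : ℕ) : Set Oracle :=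
  {A | M.out (gK b A) (List.replicate n true) ≠ M.out (gK' b n A) (List.replicate n true)}

/-- the polynomial `b` bounds the lengths of the strings on which `KA` depends -/
def Bnd (b : Polynomial ℕ) : Prop := ∀ (A A' : Oracle) (u : List Bool),
  (∀ q : List Bool, q.length < b.eval u.length → A q = A' q) → (u ∈ KA A ↔ u ∈ KA A')

/-- an event that depends on finitely many strings only -/
def FLoc (S : Set Oracle) : Prop := ∃ N : ℕ, Loc {q | q.length < N} S

end Pool.Agent.H583R2.LH
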