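import Pool.Agent.H583R2.LH.Reg
import Pool.Agent.H628R3.RO.M2

/-! Task PN: the probability that there are hidden strings. -/

namespace Pool.Agent.H583R2.LH

open MeasureTheory Pool.Agent.NPC Pool.Agent.H628R3.RO
open Pool.Agent.H583R2.S2 (chr IsP)
open Pool.Agent.H673R2.OneTT (KA)

private theorem Ne_eq (n : ℕ) : Ne n = (NoHit n (cands {0} n))ᶜ := by
  ext A
  constructor
  · rintro ⟨y, hy, h⟩ h'
    refine h' (0, y) (mem_cands.2 ⟨Finset.mem_singleton_self _, hy⟩) fun i hi => ?_
    exact h i (by rw [hy]; exact hi)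
  · intro h
    by_contra h'
    apply h
    intro κ hκ hh
    rw [mem_cands, Finset.mem_singleton] at hκ
    refine h' ⟨κ.2, hκ.2, fun i hi => ?_⟩
    have := hh i (by rw [← hκ.2]; exact hi)
    rw [hκ.1] at this
    exact this

theorem floc_Ne (n : ℕ) : FLoc (Ne n) := by
  refine ⟨2 * n + 2, fun A A' h => ?_⟩
  unfold Ne
  simp only [Set.mem_ofPred_eq]
  refine exists_congr fun y => and_congr_right fun hy => ?_
  unfold Hid
  simp only [Set.mem_ofPred_eq]
  refine forall₂_congr fun i hi => ?_
  rw [h (yp y i)]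
  show (pos 0 i y).length < 2 * n + 2
  rw [length_pos]
  omega

theorem prob_Ne_inter {n : ℕ} (hn : 1 ≤ n) {S : Set Oracle}
    (hS : Loc {q | q.length < n} S) : prob (S ∩ Ne n) ≤ 3 / 4 * prob S := by
  have hfin : {q : List Bool | q.length < n}.Finite :=
    (finite_length_le n).subset fun q (hq : q.length < n) => (le_of_lt hq : q.length ≤ n)
  have h1 : prob (S ∩ NoHit n (cands {0} n)) =
      prob S * (1 - (1 / 2) ^ n) ^ (cands {0} n).card := by
    refine prob_noHit_inter hfin hS n (cands {0} n) fun κ hκ i hi h => ?_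
    have h2 := (mem_cands.1 hκ).2
    have h3 : (pos κ.1 i κ.2).length < n := h
    rw [length_pos] at h3
    omega
  rw [card_cands, Finset.card_singleton] at h1
  have h2 := sat_ge hn 1
  have h3 := M2.prob_inter_add_compl S (M2.measurableSet_noHit n (cands {0} n))
  have h4 := M2.prob_nonneg S
  rw [Ne_eq]
  nlinarith [mul_le_mul_of_nonneg_left h2 h4]

end Pool.Agent.H583R2.LH
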