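import Pool.Agent.H583R2.LH.PrDel
import Pool.Agent.H583R2.LH.PrNe

/-! Task XC: the exchange argument. -/

namespace Pool.Agent.H583R2.LH

open MeasureTheory Pool.Agent.NPC Pool.Agent.H628R3.RO
open Pool.Agent.H583R2.S2 (chr IsP)
open Pool.Agent.H673R2.OneTT (KA)

private theorem XC_meas {S : Set Oracle} (h : FLoc S) : MeasurableSet S := by
  obtain ⟨N, hN⟩ := h
  exact measurableSet_of_loc (List.finite_length_lt Bool N) hN

private theorem XC_inter {S T : Set Oracle} (h : FLoc S) (h' : FLoc T) : FLoc (S ∩ T) := by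
  obtain ⟨N, hN⟩ := h
  obtain ⟨N', hN'⟩ := h'
  refine ⟨max N N', M2.Loc.inter (M2.Loc.mono hN ?_) (M2.Loc.mono hN' ?_)⟩
  · intro q (hq : q.length < N)
    exact lt_of_lt_of_le hq (le_max_left _ _)
  · intro q (hq : q.length < N')
    exact lt_of_lt_of_le hq (le_max_right _ _)

private theorem XC_compl {S : Set Oracle} (h : FLoc S) : FLoc Sᶜ := by
  obtain ⟨N, hN⟩ := h
  exact ⟨N, M2.Loc.compl hN⟩

/-- membership in `dec A [y]` is local -/
private theorem XC_dec {S : Set Oracle} (h : FLoc S) (y : List Bool) :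
    FLoc {A | dec A [y] ∈ S} := by
  obtain ⟨N, hN⟩ := h
  refine ⟨N, fun A A' hA => hN _ _ fun q (hq : q.length < N) => ?_⟩
  unfold dec
  rcases hp : prs q with _ | ⟨y', i⟩
  · exact hA q hq
  · dsimp only
    split_ifs with h1 h2
    · rfl
    · apply hA
      have hq' := prs_some hp
      rw [hq', length_yp] at hq
      show (yp y' (i - y'.length)).length < N
      rw [length_yp]
      omega
    · exact hA q hq

/-- `del` does not change the short strings -/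
private theorem XC_del {A : Oracle} {y q : List Bool} (hq : q.length < y.length) :
    del y A q = A q := by
  unfold del
  rcases hp : prs q with _ | ⟨y', i⟩
  · rfl
  · dsimp only
    have hq' := prs_some hp
    have h1 : q.length = i + y'.length + 2 := by rw [hq', length_yp]
    rw [if_neg]
    rintro rfl
    omega

theorem exc {n q : ℕ} (hn : 1 ≤ n) {S Acc : Set Oracle} (hS : Loc {x | x.length < n} S)
    (hAcc : FLoc Acc) (h : ∀ A ∈ Acc, A ∉ Ne n → ∃ U : Finset (List Bool), U.card ≤ q ∧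
      ∀ y : List Bool, y.length = n → y ∉ U → dec A [y] ∈ Acc) :
    prob (S ∩ {A | A ∈ Acc ↔ A ∉ Ne n}) ≤ (3 / 4 + q / 2 ^ n) * prob S := by
  classical
  have hSf : FLoc S := ⟨n, hS⟩
  have hNf : FLoc (Ne n) := floc_Ne n
  have hDf : FLoc (S ∩ Acc ∩ (Ne n)ᶜ) := XC_inter (XC_inter hSf hAcc) (XC_compl hNf)
  set D : Set Oracle := S ∩ Acc ∩ (Ne n)ᶜ with hD
  have hDm := XC_meas hDf
  set W : Finset Cand := cands {0} n with hW
  have hWc : W.card = 2 ^ n := by
    rw [hW, card_cands]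
    simp
  have hWm : ∀ κ ∈ W, κ.2.length = n := fun κ hκ => (mem_cands.1 hκ).2
  have hW0 : ∀ κ ∈ W, κ.1 = 0 := fun κ hκ => by
    have := (mem_cands.1 hκ).1
    simpa using this
  -- the sets of bad exchanges
  let B : Cand → Set Oracle := fun κ => {A | dec A [κ.2] ∉ Acc}
  have hBf : ∀ κ, FLoc (B κ) := fun κ => XC_compl (XC_dec hAcc κ.2)
  have h1 : ∑ κ ∈ W, prob (D ∩ B κ) ≤ q * prob D := by
    apply M2.sum_prob_le hDm W B (fun κ => XC_meas (hBf κ)) q
    intro A hA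
    obtain ⟨U, hU, hU'⟩ := h A hA.1.2 hA.2
    refine ⟨U.image (fun y => (0, y)), Finset.card_image_le.trans hU, fun κ hκ hκ' => ?_⟩
    by_contra h2
    apply hκ'
    apply hU' κ.2 (hWm κ hκ)
    intro h3
    apply h2
    rw [Finset.mem_image]
    exact ⟨κ.2, h3, Prod.ext (hW0 κ hκ).symm rfl⟩
  let F : Cand → Set Oracle := fun κ => D ∩ (B κ)ᶜ
  have hFf : ∀ κ, FLoc (F κ) := fun κ => XC_inter hDf (XC_compl (hBf κ))
  have h2 : ∀ κ ∈ W, prob (F κ) = prob D - prob (D ∩ B κ) := by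
    intro κ _
    have := M2.prob_inter_add_compl D (XC_meas (hBf κ))
    show prob (D ∩ (B κ)ᶜ) = _
    linarith
  have h3 : (2 ^ n - q) * prob D ≤ ∑ κ ∈ W, prob (F κ) := by
    rw [Finset.sum_congr rfl h2, Finset.sum_sub_distrib, Finset.sum_const, hWc, nsmul_eq_mul]
    push_cast
    linarith
  -- the exchanged events
  let Gy : Cand → Set Oracle := fun κ => {A | κ.2 ∈ Hid A} ∩ {A | del κ.2 A ∈ F κ}
  have h4 : ∀ κ ∈ W, prob (Gy κ) = (1 / 2) ^ n * prob (F κ) := by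
    intro κ hκ
    have := prob_del κ.2 (hFf κ)
    rw [hWm κ hκ] at this
    exact this
  have hHid : ∀ y : List Bool, FLoc {A : Oracle | y ∈ Hid A} := by
    intro y
    refine ⟨2 * y.length + 2, fun A A' hA => ?_⟩
    show (∀ i < y.length, A (yp y i) = true) ↔ (∀ i < y.length, A' (yp y i) = true)
    refine forall₂_congr fun i hi => ?_
    rw [hA (yp y i)]
    show (yp y i).length < _
    rw [length_yp]
    omega
  have hdelf : ∀ κ, FLoc {A : Oracle | del κ.2 A ∈ F κ} := by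
    intro κ
    obtain ⟨N, hN⟩ := hFf κ
    refine ⟨N + κ.2.length, fun A A' hA => hN _ _ fun x (hx : x.length < N) => ?_⟩
    unfold del
    rcases hp : prs x with _ | ⟨y', i⟩
    · exact hA x (by show x.length < _; omega)
    · dsimp only
      split_ifs with h5
      · apply hA
        have hq' := prs_some hp
        rw [hq', length_yp] at hx
        show (yp κ.2 (i + κ.2.length)).length < _
        rw [length_yp]
        rw [h5] at hx
        omega
      · exact hA x (by show x.length < _; omega)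
  have h5 : ∑ κ ∈ W, prob (Gy κ) ≤ prob (S ∩ Acc ∩ Ne n) := by
    have hm : ∀ κ ∈ W, MeasurableSet (Gy κ) := fun κ _ =>
      XC_meas (XC_inter (hHid κ.2) (hdelf κ))
    have hd : ∀ κ ∈ W, ∀ κ' ∈ W, κ ≠ κ' → Disjoint (Gy κ) (Gy κ') := by
      intro κ hκ κ' hκ' hne
      rw [Set.disjoint_left]
      rintro A ⟨hA1, hA2⟩ ⟨hA3, -⟩
      have hy : κ'.2 ≠ κ.2 := fun e => hne (Prod.ext ((hW0 κ hκ).trans (hW0 κ' hκ').symm) e.symm)
      have h6 : κ'.2 ∈ Hid (del κ.2 A) := (hid_del hy).2 hA3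
      exact hA2.1.2 ⟨κ'.2, hWm κ' hκ', h6⟩
    have hT : ∀ κ ∈ W, Gy κ ⊆ S ∩ Acc ∩ Ne n := by
      rintro κ hκ A ⟨hA1, hA2⟩
      have hA1' : κ.2 ∈ Hid A := hA1
      refine ⟨⟨?_, ?_⟩, ⟨κ.2, hWm κ hκ, hA1⟩⟩
      · refine (hS (del κ.2 A) A fun x (hx : x.length < n) => ?_).1 hA2.1.1.1
        exact XC_del (by rw [hWm κ hκ]; exact hx)
      · have h6 : ¬ (dec (del κ.2 A) [κ.2] ∉ Acc) := hA2.2
        rw [not_not, dec_del hA1'] at h6
        exact h6
    have h7 : prob (⋃ κ ∈ W, Gy κ) = ∑ κ ∈ W, prob (Gy κ) :=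
      measureReal_biUnion_finset (fun i hi j hj hij => hd i hi j hj hij) hm
    rw [← h7]
    exact M2.prob_mono (Set.iUnion₂_subset hT)
  have h6 : (1 - q / 2 ^ n) * prob D ≤ prob (S ∩ Acc ∩ Ne n) := by
    refine le_trans ?_ h5
    rw [Finset.sum_congr rfl h4, ← Finset.mul_sum]
    have h8 : (1 / 2 : ℝ) ^ n * ((2 ^ n - q) * prob D) ≤ (1 / 2) ^ n * ∑ κ ∈ W, prob (F κ) :=
      mul_le_mul_of_nonneg_left h3 (by positivity)
    refine le_trans (le_of_eq ?_) h8
    have h9 : (2 : ℝ) ^ n ≠ 0 := by positivity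
    rw [one_div, inv_pow]
    field_simp
  have h7 : prob (S ∩ Ne n) ≤ 3 / 4 * prob S := prob_Ne_inter hn hS
  have h8 : prob (S ∩ Ne n ∩ Acc) + prob (S ∩ Ne n ∩ Accᶜ) = prob (S ∩ Ne n) :=
    M2.prob_inter_add_compl _ (XC_meas hAcc)
  have h9 : S ∩ Ne n ∩ Acc = S ∩ Acc ∩ Ne n := by
    ext A
    simp only [Set.mem_inter_iff]
    tauto
  have h10 : S ∩ {A | A ∈ Acc ↔ A ∉ Ne n} ⊆ D ∪ (S ∩ Ne n ∩ Accᶜ) := by
    rintro A ⟨hA, hA' : A ∈ Acc ↔ A ∉ Ne n⟩
    by_cases h11 : A ∈ Acc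
    · exact Or.inl ⟨⟨hA, h11⟩, hA'.1 h11⟩
    · refine Or.inr ⟨⟨hA, ?_⟩, h11⟩
      by_contra h12
      exact h11 (hA'.2 h12)
  have h11 : prob (S ∩ {A | A ∈ Acc ↔ A ∉ Ne n}) ≤ prob D + prob (S ∩ Ne n ∩ Accᶜ) :=
    (M2.prob_mono h10).trans (M2.prob_union_le _ _)
  have h12 : prob D ≤ prob S := M2.prob_mono fun A hA => hA.1.1
  have h13 : (q : ℝ) / 2 ^ n * prob D ≤ q / 2 ^ n * prob S :=
    mul_le_mul_of_nonneg_left h12 (by positivity)
  rw [h9] at h8
  have h14 : (1 - (q : ℝ) / 2 ^ n) * prob D = prob D - q / 2 ^ n * prob D := by ring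
  rw [h14] at h6
  have h15 : (3 / 4 + (q : ℝ) / 2 ^ n) * prob S = 3 / 4 * prob S + q / 2 ^ n * prob S := by ring
  rw [h15]
  linarith

end Pool.Agent.H583R2.LH
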