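import Pool.Agent.H583R2.LH.NF
import Pool.Agent.H671R2.PolyAuto

/-! Task FA: nondeterministic algorithms with a family of oracles. -/

namespace Pool.Agent.H583R2.LH

open MeasureTheory Pool.Agent.NPC Pool.Agent.H628R3.RO
open Pool.Agent.H583R2.S2 (chr IsP)
open Pool.Agent.H673R2.OneTT (KA)

namespace FA

theorem flatMap_inj {α β : Type} (f g : α → List β) : ∀ (l : List α),
    (∀ a ∈ l, (f a).length = (g a).length) → l.flatMap f = l.flatMap g → ∀ a ∈ l, f a = g a := by
  intro l
  induction l with
  | nil => intro _ _ a ha; simp at ha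
  | cons b l ih =>
    intro hl h a ha
    rw [List.flatMap_cons, List.flatMap_cons] at h
    obtain ⟨h1, h2⟩ := List.append_inj h (hl b (by simp))
    rcases List.mem_cons.1 ha with h3 | h3
    · subst h3
      exact h1
    · exact ih (fun a ha => hl a (List.mem_cons_of_mem _ ha)) h2 a h3

theorem flatMap_congr' {α β : Type} (f g : α → List β) : ∀ (l : List α),
    (∀ a ∈ l, f a = g a) → l.flatMap f = l.flatMap g := by
  intro l
  induction l with
  | nil => intro _; rfl
  | cons b l ih =>
    intro hl
    rw [List.flatMap_cons, List.flatMap_cons, hl b (by simp),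
      ih (fun a ha => hl a (List.mem_cons_of_mem _ ha))]

theorem map_flatMap' {α β γ : Type} (f : α → List β) (F : β → γ) (l : List α) :
    (l.flatMap f).map F = l.flatMap (fun a => (f a).map F) := by
  induction l with
  | nil => rfl
  | cons b l ih => simp [List.flatMap_cons, ih]

theorem map_eq_of_zip {α β γ : Type} (f : α → γ) (g : β → γ) : ∀ (l : List α) (l' : List β),
    l.length = l'.length → (∀ p ∈ l.zip l', f p.1 = g p.2) → l.map f = l'.map g := by
  intro l
  induction l with
  | nil =>
    intro l' h _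
    cases l' with
    | nil => rfl
    | cons _ _ => simp at h
  | cons a l ih =>
    intro l' h h2
    cases l' with
    | nil => simp at h
    | cons b l' =>
      simp only [List.length_cons, Nat.add_right_cancel_iff] at h
      rw [List.map_cons, List.map_cons, ih l' h (fun p hp => h2 p (by simp [hp]))]
      congr 1
      exact h2 (a, b) (by simp)

theorem mem_zip_map {α β : Type} (e : α → β) : ∀ (l : List α) (p : α × β),
    p ∈ l.zip (l.map e) → p.2 = e p.1 := by
  intro l
  induction l with
  | nil => intro p hp; simp at hp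
  | cons a l ih =>
    intro p hp
    rw [List.map_cons, List.zip_cons_cons] at hp
    rcases List.mem_cons.1 hp with h | h
    · rw [h]
    · exact ih p h

theorem length_pb (x w : List Bool) : (pairBits x w).length = 2 * x.length + 1 + w.length := by
  simp [pairBits]
  omega

theorem length_le_sz (l : List Bool) : l.length ≤ sz l := (length_lt_sz l).le

/-- the certificates: value, certificate for the value, answers -/
abbrev E := Bool × List Bool × List Bool

theorem entries (O : List Bool → Oracle) (O2 : Oracle) (kq : List Bool → List Bool → List Bool)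
    (hk : Poly (fun p : List Bool × List Bool => kq p.1 p.2))
    {L1 L0 : Set (List Bool)} (hL1 : IsNP O2 L1) (hL0 : IsNP O2 L0)
    (h1 : ∀ g q, O g q = true ↔ kq g q ∈ L1) (h0 : ∀ g q, O g q = false ↔ kq g q ∈ L0) :
    ∃ (qs : List Bool × List Bool × E → List (List Bool)) (chk : List Bool × List Bool × E → Bool)
      (S : Polynomial ℕ), Poly qs ∧ Poly chk ∧
      (∀ g q e, chk (g, q, e) = true → e.2.2.length = (qs (g, q, e)).length ∧
        (e.2.2 = (qs (g, q, e)).map O2 → O g q = e.1)) ∧
      (∀ g q, ∃ e : E, e.1 = O g q ∧ chk (g, q, e) = true ∧ e.2.2 = (qs (g, q, e)).map O2 ∧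
        sz e ≤ S.eval (sz (g, q))) := by
  obtain ⟨V1, p1, hV1⟩ := exists_wit hL1
  obtain ⟨V0, p0, hV0⟩ := exists_wit hL0
  obtain ⟨Q1, H1, r1, pQ1, pH1, hn1⟩ := nf V1 p1
  obtain ⟨Q0, H0, r0, pQ0, pH0, hn0⟩ := nf V0 p0
  obtain ⟨K, hK⟩ := hk.sz_le
  obtain ⟨b1, hb1⟩ := pQ1.sz_le
  obtain ⟨b0, hb0⟩ := pQ0.sz_le
  have hkc : Poly (fun t : List Bool × List Bool × E => kq t.1 t.2.1) :=
    Poly.comp (g := fun p : List Bool × List Bool => kq p.1 p.2)
      (f := fun t : List Bool × List Bool × E => (t.1, t.2.1)) hk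
      (Poly.pair (Poly.fst Poly.id) (Poly.fst (Poly.snd Poly.id)))
  have hz : Poly (fun t : List Bool × List Bool × E => pairBits (kq t.1 t.2.1) t.2.2.2.1) :=
    H622R2.poly_pairBits hkc (Poly.fst (Poly.snd (Poly.snd (Poly.snd Poly.id))))
  have hb : Poly (fun t : List Bool × List Bool × E => t.2.2.2.2) :=
    Poly.snd (Poly.snd (Poly.snd (Poly.snd Poly.id)))
  have hc : Poly (fun t : List Bool × List Bool × E => t.2.2.2.1) :=
    Poly.fst (Poly.snd (Poly.snd (Poly.snd Poly.id)))
  have ha : Poly (fun t : List Bool × List Bool × E => t.2.2.1) :=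
    Poly.fst (Poly.snd (Poly.snd Poly.id))
  have hchk : ∀ (Q : List Bool → List (List Bool)) (H : List Bool × List Bool → Bool)
      (r : Polynomial ℕ), Poly Q → Poly H → Poly (fun t : List Bool × List Bool × E =>
        (decide (t.2.2.2.1.length ≤ r.eval (kq t.1 t.2.1).length) &&
        (decide (t.2.2.2.2.length = (Q (pairBits (kq t.1 t.2.1) t.2.2.2.1)).length) &&
          H (pairBits (kq t.1 t.2.1) t.2.2.2.1, t.2.2.2.2)))) := by
    intro Q H r pQ pH
    refine Poly.and (Poly.decide_le (Poly.length hc) (UPoly.toPoly (UPoly.eval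
      (UPoly.length hkc) r))) (Poly.and (Poly.decide_eq (Poly.length hb)
      (Poly.length (Poly.comp pQ hz))) (Poly.comp pH (Poly.pair hz hb)))
  have hres : ∀ (Q : List Bool → List (List Bool)) (b r : Polynomial ℕ)
      (hQ : ∀ a, sz (Q a) ≤ b.eval (sz a)) (a : Bool) (g q c : List Bool)
      (hcl : c.length ≤ r.eval (kq g q).length),
      sz ((a, c, (Q (pairBits (kq g q) c)).map O2) : E) ≤
        4 * r.eval (K.eval (sz (g, q))) + 4 * b.eval (4 * (2 * K.eval (sz (g, q)) + 1 +
          r.eval (K.eval (sz (g, q)))) + 1) + 10 := by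
    intro Q b r hQ a g q c hcl
    have e1 : (kq g q).length ≤ K.eval (sz (g, q)) := (length_le_sz _).trans (hK (g, q))
    have e2 : c.length ≤ r.eval (K.eval (sz (g, q))) := hcl.trans (eval_mono r e1)
    have e3 := length_pb (kq g q) c
    have e4 := sz_listBool_le (pairBits (kq g q) c)
    have e5 : sz (Q (pairBits (kq g q) c)) ≤ b.eval (4 * (2 * K.eval (sz (g, q)) + 1 +
          r.eval (K.eval (sz (g, q)))) + 1) := by
      refine (hQ _).trans (eval_mono b ?_)
      omega
    have e6 := length_lt_sz (Q (pairBits (kq g q) c))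
    have e7 := sz_listBool_le c
    have e8 := sz_listBool_le ((Q (pairBits (kq g q) c)).map O2)
    rw [List.length_map] at e8
    have e9 := sz_bool_le a
    rw [sz_pair, sz_pair]
    omega
  refine ⟨fun t => bif t.2.2.1 then Q1 (pairBits (kq t.1 t.2.1) t.2.2.2.1)
    else Q0 (pairBits (kq t.1 t.2.1) t.2.2.2.1),
    fun t => bif t.2.2.1 then (decide (t.2.2.2.1.length ≤ r1.eval (kq t.1 t.2.1).length) &&
        (decide (t.2.2.2.2.length = (Q1 (pairBits (kq t.1 t.2.1) t.2.2.2.1)).length) &&
          H1 (pairBits (kq t.1 t.2.1) t.2.2.2.1, t.2.2.2.2))) else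
        (decide (t.2.2.2.1.length ≤ r0.eval (kq t.1 t.2.1).length) &&
        (decide (t.2.2.2.2.length = (Q0 (pairBits (kq t.1 t.2.1) t.2.2.2.1)).length) &&
          H0 (pairBits (kq t.1 t.2.1) t.2.2.2.1, t.2.2.2.2))),
    (Polynomial.C 4 * r1.comp K + Polynomial.C 4 * b1.comp (Polynomial.C 4 *
      (Polynomial.C 2 * K + Polynomial.C 1 + r1.comp K) + Polynomial.C 1) + Polynomial.C 10) +
    (Polynomial.C 4 * r0.comp K + Polynomial.C 4 * b0.comp (Polynomial.C 4 *
      (Polynomial.C 2 * K + Polynomial.C 1 + r0.comp K) + Polynomial.C 1) + Polynomial.C 10),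
    Poly.cond ha (Poly.comp pQ1 hz) (Poly.comp pQ0 hz),
    Poly.cond ha (hchk Q1 H1 r1 pQ1 pH1) (hchk Q0 H0 r0 pQ0 pH0), ?_, ?_⟩
  · rintro g q ⟨a, c, b⟩ h
    cases a with
    | true =>
      simp only [cond_true, Bool.and_eq_true, decide_eq_true_eq] at h ⊢
      obtain ⟨g1, g2, g3⟩ := h
      refine ⟨g2, fun hbb => ?_⟩
      rw [hbb] at g3
      exact (h1 g q).2 ((hV1 _).2 ((hn1 O2 _).2 ⟨c, g1, g3⟩))
    | false =>
      simp only [cond_false, Bool.and_eq_true, decide_eq_true_eq] at h ⊢
      obtain ⟨g1, g2, g3⟩ := h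
      refine ⟨g2, fun hbb => ?_⟩
      rw [hbb] at g3
      exact (h0 g q).2 ((hV0 _).2 ((hn0 O2 _).2 ⟨c, g1, g3⟩))
  · intro g q
    cases hO : O g q with
    | true =>
      obtain ⟨c, g1, g2⟩ := (hn1 O2 _).1 ((hV1 _).1 ((h1 g q).1 hO))
      refine ⟨(true, c, (Q1 (pairBits (kq g q) c)).map O2), rfl, ?_, ?_, ?_⟩
      · simp only [cond_true, Bool.and_eq_true, decide_eq_true_eq]
        exact ⟨g1, by rw [List.length_map], g2⟩
      · simp only [cond_true]
      · refine (hres Q1 b1 r1 hb1 true g q c g1).trans ?_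
        simp only [Polynomial.eval_add, Polynomial.eval_mul, Polynomial.eval_comp,
          Polynomial.eval_C]
        omega
    | false =>
      obtain ⟨c, g1, g2⟩ := (hn0 O2 _).1 ((hV0 _).1 ((h0 g q).1 hO))
      refine ⟨(false, c, (Q0 (pairBits (kq g q) c)).map O2), rfl, ?_, ?_, ?_⟩
      · simp only [cond_false, Bool.and_eq_true, decide_eq_true_eq]
        exact ⟨g1, by rw [List.length_map], g2⟩
      · simp only [cond_false]
      · refine (hres Q0 b0 r0 hb0 false g q c g1).trans ?_
        simp only [Polynomial.eval_add, Polynomial.eval_mul, Polynomial.eval_comp,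
          Polynomial.eval_C]
        omega

/-- decoding the certificate -/
def dd (w : List Bool) : List Bool × List E := (unbits (List Bool × List E) w).getD ([], [])

theorem dd_bits (D : List Bool × List E) : dd (bits D) = D := by
  unfold dd
  rw [unbits_bits]
  rfl

theorem poly_dd : Poly dd :=
  (Poly.optCases (h := fun _ D => D) (poly_unbits (α := List Bool × List E))
    (NPC.Poly.const ([], [])) (Poly.snd Poly.id)).congr fun a => by
      unfold dd
      cases unbits (List Bool × List E) a <;> rfl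

theorem core (O : List Bool → Oracle) (O2 : Oracle) (kq : List Bool → List Bool → List Bool)
    (hk : Poly (fun p : List Bool × List Bool => kq p.1 p.2))
    {L1 L0 : Set (List Bool)} (hL1 : IsNP O2 L1) (hL0 : IsNP O2 L0)
    (h1 : ∀ g q, O g q = true ↔ kq g q ∈ L1) (h0 : ∀ g q, O g q = false ↔ kq g q ∈ L0)
    (V : Alg) (p : Polynomial ℕ) (dg dx : List Bool → List Bool) (hdg : Poly dg) (hdx : Poly dx) :
    IsNP O2 {u | Wit V p (dx u) (O (dg u))} := by
  obtain ⟨qs, chk, S, pqs, pchk, hs1, hs2⟩ := entries O O2 kq hk hL1 hL0 h1 h0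
  obtain ⟨Q, H, r, pQ, pH, hn⟩ := nf V p
  obtain ⟨Bg, hBg⟩ := hdg.sz_le
  obtain ⟨Bx, hBx⟩ := hdx.sz_le
  obtain ⟨BQ, hBQ⟩ := pQ.sz_le
  have hu : Poly (fun v : List Bool => (unpair v).1) := Poly.fst poly_unpair
  have hD : Poly (fun v : List Bool => dd (unpair v).2) := Poly.comp poly_dd (Poly.snd poly_unpair)
  have hxx : Poly (fun v : List Bool => dx (unpair v).1) := Poly.comp hdx hu
  have hgg : Poly (fun v : List Bool => dg (unpair v).1) := Poly.comp hdg hu
  have hpb : Poly (fun v : List Bool => pairBits (dx (unpair v).1) (dd (unpair v).2).1) :=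
    H622R2.poly_pairBits hxx (Poly.fst hD)
  have hQpb : Poly (fun v : List Bool => Q (pairBits (dx (unpair v).1) (dd (unpair v).2).1)) :=
    Poly.comp pQ hpb
  have hzip : Poly (fun v : List Bool =>
      (Q (pairBits (dx (unpair v).1) (dd (unpair v).2).1)).zip (dd (unpair v).2).2) :=
    Poly.zip hQpb (Poly.snd hD)
  have htr : Poly (fun t : List Bool × (List Bool × E) => (dg (unpair t.1).1, t.2.1, t.2.2)) :=
    Poly.pair (Poly.comp (g := fun v : List Bool => dg (unpair v).1) hgg (Poly.fst Poly.id))
      (Poly.pair (Poly.fst (Poly.snd Poly.id)) (Poly.snd (Poly.snd Poly.id)))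
  have pQ' : Poly (fun v : List Bool =>
      ((Q (pairBits (dx (unpair v).1) (dd (unpair v).2).1)).zip (dd (unpair v).2).2).flatMap
        (fun t => qs (dg (unpair v).1, t.1, t.2))) :=
    Poly.flatMap (F := fun v t => qs (dg (unpair v).1, t.1, t.2)) hzip (Poly.comp pqs htr)
  have pall : Poly (fun v : List Bool =>
      ((Q (pairBits (dx (unpair v).1) (dd (unpair v).2).1)).zip (dd (unpair v).2).2).all
        (fun t => chk (dg (unpair v).1, t.1, t.2))) :=
    Poly.all (p := fun v t => chk (dg (unpair v).1, t.1, t.2)) hzip (Poly.comp pchk htr)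
  have pans : Poly (fun v : List Bool =>
      ((Q (pairBits (dx (unpair v).1) (dd (unpair v).2).1)).zip (dd (unpair v).2).2).flatMap
        (fun t => t.2.2.2)) :=
    Poly.flatMap (F := fun _ t => t.2.2.2) hzip (Poly.snd (Poly.snd (Poly.snd (Poly.snd Poly.id))))
  have pmap : Poly (fun v : List Bool => (dd (unpair v).2).2.map Prod.fst) :=
    NPC.Poly.map (F := fun _ t => t.1) (Poly.snd hD) (Poly.fst (Poly.snd Poly.id))
  have f1 : Poly (fun z : List Bool × List Bool => z.1) := Poly.fst Poly.id
  have f2 : Poly (fun z : List Bool × List Bool => z.2) := Poly.snd Poly.id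
  have pH' : Poly (fun z : List Bool × List Bool =>
      (decide ((dd (unpair z.1).2).1.length ≤ r.eval (dx (unpair z.1).1).length) &&
      (decide ((Q (pairBits (dx (unpair z.1).1) (dd (unpair z.1).2).1)).length =
        (dd (unpair z.1).2).2.length) &&
      ((((Q (pairBits (dx (unpair z.1).1) (dd (unpair z.1).2).1)).zip (dd (unpair z.1).2).2).all
        (fun t => chk (dg (unpair z.1).1, t.1, t.2))) &&
      (decide (z.2 = ((Q (pairBits (dx (unpair z.1).1) (dd (unpair z.1).2).1)).zip
        (dd (unpair z.1).2).2).flatMap (fun t => t.2.2.2)) &&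
      H (pairBits (dx (unpair z.1).1) (dd (unpair z.1).2).1,
        (dd (unpair z.1).2).2.map Prod.fst)))))) := by
    have k1 := Poly.comp (g := fun v : List Bool => (dd (unpair v).2).1) (Poly.fst hD) f1
    have k2 := Poly.comp (g := fun v : List Bool => (dd (unpair v).2).2) (Poly.snd hD) f1
    have k3 := Poly.comp (g := fun v : List Bool => dx (unpair v).1) hxx f1
    have k4 := Poly.comp (g := fun v : List Bool =>
      Q (pairBits (dx (unpair v).1) (dd (unpair v).2).1)) hQpb f1
    have k5 := Poly.comp (g := fun v : List Bool =>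
      pairBits (dx (unpair v).1) (dd (unpair v).2).1) hpb f1
    have k6 := Poly.comp (g := fun v : List Bool => (dd (unpair v).2).2.map Prod.fst) pmap f1
    have k7 := Poly.comp (g := fun v : List Bool =>
      ((Q (pairBits (dx (unpair v).1) (dd (unpair v).2).1)).zip (dd (unpair v).2).2).flatMap
        (fun t => t.2.2.2)) pans f1
    have k8 := Poly.comp (g := fun v : List Bool =>
      ((Q (pairBits (dx (unpair v).1) (dd (unpair v).2).1)).zip (dd (unpair v).2).2).all
        (fun t => chk (dg (unpair v).1, t.1, t.2))) pall f1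
    exact Poly.and (Poly.decide_le (Poly.length k1) (UPoly.toPoly (UPoly.eval
      (UPoly.length k3) r))) (Poly.and (Poly.decide_eq (Poly.length k4) (Poly.length k2))
      (Poly.and k8 (Poly.and (Poly.decide_eq f2 k7) (Poly.comp pH (Poly.pair k5 k6)))))
  refine isNP_of_nf (r := Polynomial.C 4 * r.comp (Bx.comp (Polynomial.C 4 * Polynomial.X +
      Polynomial.C 1)) + BQ.comp (Polynomial.C 4 * (Polynomial.C 2 * Bx.comp (Polynomial.C 4 *
      Polynomial.X + Polynomial.C 1) + Polynomial.C 1 + r.comp (Bx.comp (Polynomial.C 4 *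
      Polynomial.X + Polynomial.C 1))) + Polynomial.C 1) * (S.comp (Bg.comp (Polynomial.C 4 *
      Polynomial.X + Polynomial.C 1) + BQ.comp (Polynomial.C 4 * (Polynomial.C 2 * Bx.comp
      (Polynomial.C 4 * Polynomial.X + Polynomial.C 1) + Polynomial.C 1 + r.comp (Bx.comp
      (Polynomial.C 4 * Polynomial.X + Polynomial.C 1))) + Polynomial.C 1) + Polynomial.C 1) +
      Polynomial.C 1) + Polynomial.C 3) pQ' pH' fun u => ?_
  constructor
  · intro hu'
    obtain ⟨w, hw1, hw2⟩ := (hn (O (dg u)) (dx u)).1 hu'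
    choose e he1 he2 he3 he4 using hs2 (dg u)
    refine ⟨bits ((w, (Q (pairBits (dx u) w)).map e) : List Bool × List E), ?_, ?_⟩
    · rw [bits_length, sz_pair]
      have e1 : (dx u).length ≤ Bx.eval (4 * u.length + 1) :=
        (length_le_sz _).trans ((hBx u).trans (eval_mono Bx (sz_listBool_le u)))
      have e2 : w.length ≤ r.eval (Bx.eval (4 * u.length + 1)) := hw1.trans (eval_mono r e1)
      have e3 := length_pb (dx u) w
      have e4 := sz_listBool_le (pairBits (dx u) w)
      have e5 : sz (Q (pairBits (dx u) w)) ≤ BQ.eval (4 * (2 * Bx.eval (4 * u.length + 1) + 1 +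
          r.eval (Bx.eval (4 * u.length + 1))) + 1) := (hBQ _).trans (eval_mono BQ (by omega))
      have e6 : sz (dg u) ≤ Bg.eval (4 * u.length + 1) :=
        (hBg u).trans (eval_mono Bg (sz_listBool_le u))
      have e7 : ∀ a ∈ (Q (pairBits (dx u) w)).map e, sz a ≤ S.eval (Bg.eval (4 * u.length + 1) +
          BQ.eval (4 * (2 * Bx.eval (4 * u.length + 1) + 1 +
          r.eval (Bx.eval (4 * u.length + 1))) + 1) + 1) := by
        intro a ha
        obtain ⟨q, hq, rfl⟩ := List.mem_map.1 ha
        refine (he4 q).trans (eval_mono S ?_)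
        rw [sz_pair]
        have := sz_le_of_mem hq
        omega
      have e8 := sz_le_length_mul ((Q (pairBits (dx u) w)).map e) _ e7
      rw [List.length_map] at e8
      have e9 := length_lt_sz (Q (pairBits (dx u) w))
      have e10 := sz_listBool_le w
      have e11 := Nat.mul_le_mul_right (S.eval (Bg.eval (4 * u.length + 1) +
          BQ.eval (4 * (2 * Bx.eval (4 * u.length + 1) + 1 +
          r.eval (Bx.eval (4 * u.length + 1))) + 1) + 1) + 1) (e9.le.trans e5)
      simp only [Polynomial.eval_add, Polynomial.eval_mul, Polynomial.eval_comp,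
        Polynomial.eval_C, Polynomial.eval_X]
      omega
    · simp only [unpair_pairBits, dd_bits, Bool.and_eq_true, decide_eq_true_eq, List.all_eq_true]
      refine ⟨hw1, by rw [List.length_map], ?_, ?_, ?_⟩
      · intro t ht
        rw [mem_zip_map e _ t ht]
        exact he2 t.1
      · rw [map_flatMap']
        refine flatMap_congr' _ _ _ fun t ht => ?_
        rw [mem_zip_map e _ t ht]
        exact (he3 t.1).symm
      · rw [List.map_map]
        have h5 : (Q (pairBits (dx u) w)).map (Prod.fst ∘ e) =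
            (Q (pairBits (dx u) w)).map (O (dg u)) := List.map_congr_left fun q _ => he1 q
        rw [h5]
        exact hw2
  · rintro ⟨w', -, hw'⟩
    simp only [unpair_pairBits, Bool.and_eq_true, decide_eq_true_eq, List.all_eq_true] at hw'
    obtain ⟨g1, g2, g3, g4, g5⟩ := hw'
    refine (hn (O (dg u)) (dx u)).2 ⟨(dd w').1, g1, ?_⟩
    rw [map_flatMap'] at g4
    have g6 := flatMap_inj _ _ _ (fun t ht => by
      rw [List.length_map]
      exact (hs1 (dg u) t.1 t.2 (g3 t ht)).1.symm) g4
    have g7 := map_eq_of_zip (O (dg u)) Prod.fst _ _ g2 (fun t ht =>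
      (hs1 (dg u) t.1 t.2 (g3 t ht)).2 (g6 t ht).symm)
    rw [g7]
    exact g5

end FA

theorem np_fam (V : Alg) (p : Polynomial ℕ) {O : List Bool → Oracle} {O2 : Oracle}
    (h1 : IsNP O2 {u | O (unpair u).1 (unpair u).2 = true})
    (h0 : IsNP O2 {u | O (unpair u).1 (unpair u).2 = false}) :
    IsNP O2 {u | Wit V p (unpair u).2 (O (unpair u).1)} :=
  FA.core O O2 pairBits (H622R2.poly_pairBits (Poly.fst Poly.id) (Poly.snd Poly.id)) h1 h0
    (fun g q => by simp only [Set.mem_ofPred_eq, unpair_pairBits])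
    (fun g q => by simp only [Set.mem_ofPred_eq, unpair_pairBits]) V p
    (fun u => (unpair u).1) (fun u => (unpair u).2) (Poly.fst poly_unpair) (Poly.snd poly_unpair)

theorem np_sub {O1 O2 : Oracle} {L : Set (List Bool)} (h : IsNP O1 L)
    (h1 : IsNP O2 {u | O1 u = true}) (h0 : IsNP O2 {u | O1 u = false}) : IsNP O2 L := by
  obtain ⟨V, p, hV⟩ := exists_wit h
  have h2 := FA.core (fun _ => O1) O2 (fun _ q => q) (Poly.snd Poly.id) h1 h0
    (fun g q => Iff.rfl) (fun g q => Iff.rfl) V p (fun _ => []) (fun u => u)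
    (NPC.Poly.const []) Poly.id
  have h3 : L = {u | Wit V p u O1} := Set.ext fun x => hV x
  rw [h3]
  exact h2

end Pool.Agent.H583R2.LH
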