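import Pool.Agent.H583R2.LH.Clo
import Pool.Agent.H583R2.NC.MainF
import Pool.Agent.H583R2.NC.Mem

/-! Task IL: inclusions (helper485). -/

namespace Pool.Agent.H583R2.LH

open MeasureTheory Pool.Agent.NPC Pool.Agent.H628R3.RO
open Pool.Agent.H583R2.S2 (chr IsP)
open Pool.Agent.H673R2.OneTT (KA)

namespace IL

theorem chr_true (L : Set (List Bool)) : {u | chr L u = true} = L := by
  ext u
  exact chr_eq_true

theorem chr_false (L : Set (List Bool)) : {u | chr L u = false} = Lᶜ := by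
  ext u
  show chr L u = false ↔ u ∉ L
  rw [← chr_eq_true (K := L), Bool.not_eq_true]

theorem fp_id (A : Oracle) : IsFP A (fun x => x) := IsFP.of_poly Poly.id

theorem p_self (A : Oracle) : IsP A {u | A u = true} := isP_pre (fp_id A)

theorem np_self (A : Oracle) : IsNP A {u | A u = true} := isNP_of_isP (p_self A)

theorem np_self' (A : Oracle) : IsNP A {u | A u = false} := by
  have h := isNP_of_isP (isP_compl (p_self A))
  have e : ({u | A u = true} : Set (List Bool))ᶜ = {u | A u = false} := by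
    ext u
    show ¬ (A u = true) ↔ A u = false
    rw [Bool.not_eq_true]
  rwa [e] at h

theorem sub_of_npconp {A : Oracle} {L : Set (List Bool)} (h : IsNP A L) (h' : IsCoNP A L) :
    Sig (join A (chr L)) 1 ⊆ Sig A 1 := by
  intro M hM
  have hB1 : IsNP A {u | chr L u = true} := by rwa [chr_true]
  have hB0 : IsNP A {u | chr L u = false} := by
    rw [chr_false]
    exact h'
  have hj := np_join (np_self A) (np_self' A) hB1 hB0
  exact np_sub (O1 := join A (chr L)) hM hj.1 hj.2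

end IL

open IL

theorem low1_of_npconp {A : Oracle} {L : Set (List Bool)} (h : IsNP A L) (h' : IsCoNP A L) :
    L ∈ Low A 1 := ⟨h, sub_of_npconp h h'⟩

theorem lowD1_sub_low1 (A : Oracle) : LowD A 1 ⊆ Low A 1 := by
  rintro L ⟨h1, h2⟩
  have h3 : IsP (join A (chr L)) L := by
    have := isP_right A (chr L)
    rwa [chr_true] at this
  have h4 : IsP A L := h2 h3
  exact low1_of_npconp h1 (isNP_of_isP (isP_compl h4))

theorem low1_sub_lowD2 (A : Oracle) : Low A 1 ⊆ LowD A 2 := by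
  rintro L ⟨h1, h2⟩
  refine ⟨h1, ?_⟩
  rintro M ⟨K, hK, hM⟩
  exact ⟨K, h2 hK, hM⟩

theorem highD1_sub_high1 (A : Oracle) : HighD A 1 ⊆ High A 1 := by
  rintro L ⟨h1, h2⟩
  refine ⟨h1, ?_⟩
  rintro M ⟨K, hK, hM⟩
  have h3 : K ∈ Del A 2 := ⟨K, hK, isP_self K⟩
  have h4 : IsP (join A (chr L)) K := h2 h3
  have hB1 : IsNP (join A (chr L)) {u | chr K u = true} := by
    rw [chr_true]
    exact isNP_of_isP h4
  have hB0 : IsNP (join A (chr L)) {u | chr K u = false} := by
    rw [chr_false]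
    exact isNP_of_isP (isP_compl h4)
  exact np_sub (O1 := chr K) hM hB1 hB0

theorem high1_sub_highD2 (A : Oracle) : High A 1 ⊆ HighD A 2 := by
  rintro L ⟨h1, h2⟩
  refine ⟨h1, ?_⟩
  rintro M ⟨K, hK, hM⟩
  exact ⟨K, h2 hK, hM⟩

theorem exists_npconp : ∀ᵐ A ∂randomOracle, ∃ L : Set (List Bool),
    IsNP A L ∧ IsCoNP A L ∧ ¬ IsP A L := by
  filter_upwards [NC.npconp_main_f] with A hA
  have hP : IsP A {[true]} := ⟨fun x => x, fp_id A, fun x => by simp⟩
  obtain ⟨f, hf, hfn, hfA, hr⟩ := hA {[true]} (isNP_of_isP hP) (isNP_of_isP (isP_compl hP))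
  refine ⟨_, NC.isNP_LL A f hf hfn, NC.isCoNP_LL A f hf hfn hfA, ?_⟩
  rintro ⟨F, hF, h⟩
  exact hr ⟨F, hF, fun x => by rw [h x]; simp⟩

end Pool.Agent.H583R2.LH
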