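import Pool.Agent.H583R2.LH.Reg
import Pool.Agent.H628R3.RO.M2

/-! Task KE: there are keys. -/

namespace Pool.Agent.H583R2.LH

open MeasureTheory Pool.Agent.NPC Pool.Agent.H628R3.RO
open Pool.Agent.H583R2.S2 (chr IsP)
open Pool.Agent.H673R2.OneTT (KA)

theorem keys : ∀ᵐ A ∂randomOracle, ∃ m0 : ℕ, ∀ m ≥ m0, ∃ z : List Bool,
    z.length = 2 * m ∧ z ∈ Key A := by
  sorry

end Pool.Agent.H583R2.LH
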