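import Pool.Agent.H583R2.LH.Defs
import Pool.Agent.H628R3.RO.A3
import Pool.Agent.NPC.Num

/-! Task SI: simulation of an oracle by another one. (Proof: helper48.) -/

namespace Pool.Agent.H583R2.LH

open MeasureTheory Pool.Agent.NPC Pool.Agent.H628R3.RO
open Pool.Agent.H583R2.S2 (chr IsP)
open Pool.Agent.H673R2.OneTT (KA)

namespace SI

/-- the next action of `M` on the input `(unpair (unpair z).1).2` -/
def act (M : Alg) (z : List Bool) : List Bool :=
  M.D (pairBits (unpair (unpair z).1).2 (unpair z).2)

/-- the next action of the simulation -/
noncomputable def simD (M : Alg) (i : List Bool → List Bool) (z : List Bool) : List Bool :=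
  if M.p.eval (unpair z).1.length ≤ (unpair z).2.length then [true] else
    if (act M z).head? = some false then
      false :: i (pairBits (unpair (unpair z).1).1 (act M z).tail) else act M z

theorem poly_simD (M : Alg) {i : List Bool → List Bool} (hi : Poly i) : Poly (simD M i) := by
  unfold simD
  have hx : Poly (fun z : List Bool => (unpair z).1) := Poly.fst poly_unpair
  have ha : Poly (fun z : List Bool => (unpair z).2) := Poly.snd poly_unpair
  have hD : Poly M.D := H622R2.poly_of_polyTime M.poly
  have hact : Poly (act M) := by
    unfold act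
    exact hD.comp (H622R2.poly_pairBits (Poly.snd (poly_unpair.comp hx)) ha)
  refine Poly.ite (Poly.decide_le ((UPoly.eval (UPoly.length hx) M.p).toPoly) (Poly.length ha))
    (NPC.Poly.const _) ?_
  refine Poly.ite (Poly.decide_eq (Poly.head? hact) (NPC.Poly.const _)) ?_ hact
  exact Poly.cons (NPC.Poly.const _) (hi.comp (H622R2.poly_pairBits
    (Poly.fst (poly_unpair.comp hx)) (Poly.tail hact)))

/-- the simulation -/
noncomputable def sim (M : Alg) {i : List Bool → List Bool} (hi : Poly i) : Alg where
  D := simD M i
  poly := H622R2.polyTime_of_poly_list (poly_simD M hi)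
  p := M.p + 1

theorem sim_total (M : Alg) {i : List Bool → List Bool} (hi : Poly i) (A : Oracle)
    (v : List Bool) : ∀ (n : ℕ) (a : List Bool), M.p.eval v.length ≤ a.length + n →
      ∃ z, (sim M hi).run A v (n + 1) a = some z := by
  intro n
  induction n with
  | zero =>
    intro a ha
    rw [A2.run_succ]
    have h1 : (sim M hi).D (pairBits v a) = [true] := by
      change simD M i (pairBits v a) = [true]
      unfold simD
      rw [unpair_pairBits, if_pos (by simpa using ha)]
    rw [h1, if_neg (by simp)]
    exact ⟨_, rfl⟩
  | succ n ih =>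
    intro a ha
    rw [A2.run_succ]
    split_ifs with h
    · exact ih _ (by rw [List.length_append, List.length_singleton]; omega)
    · exact ⟨_, rfl⟩

theorem sim_run (M : Alg) {i : List Bool → List Bool} (hi : Poly i) {O1 O2 : Oracle}
    {x g : List Bool} {b : Polynomial ℕ}
    (hb : ∀ x a : List Bool, a.length ≤ M.p.eval x.length →
      (M.D (pairBits x a)).length ≤ b.eval x.length)
    (hg : ∀ q : List Bool, q.length ≤ b.eval x.length → O2 (i (pairBits g q)) = O1 q)
    {z : List Bool} : ∀ (n : ℕ) (a : List Bool), a.length + n ≤ M.p.eval x.length →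
      M.run O1 x n a = some z → ∀ n', n ≤ n' → (sim M hi).run O2 (pairBits g x) n' a = some z := by
  intro n
  induction n with
  | zero => intro a _ h; simp [Alg.run] at h
  | succ n ih =>
    intro a ha h n' hn
    obtain ⟨m, rfl⟩ : ∃ m, n' = m + 1 := ⟨n' - 1, by omega⟩
    rw [A2.run_succ] at h ⊢
    have hxv : M.p.eval x.length ≤ M.p.eval (pairBits g x).length := by
      apply eval_mono
      rw [A2.length_pairBits]
      omega
    have hact : act M (pairBits (pairBits g x) a) = M.D (pairBits x a) := by
      unfold act
      rw [unpair_pairBits]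
      simp only
      rw [unpair_pairBits]
    have hD : (sim M hi).D (pairBits (pairBits g x) a) =
        if (M.D (pairBits x a)).head? = some false then
          false :: i (pairBits g (M.D (pairBits x a)).tail) else M.D (pairBits x a) := by
      change simD M i (pairBits (pairBits g x) a) = _
      unfold simD
      rw [hact, unpair_pairBits]
      simp only
      rw [if_neg (by omega), unpair_pairBits]
    rw [hD]
    by_cases hh : (M.D (pairBits x a)).head? = some false
    · rw [if_pos hh] at h
      rw [if_pos hh, if_pos (by simp), List.tail_cons]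
      have h1 : (M.D (pairBits x a)).tail.length ≤ b.eval x.length := by
        rw [List.length_tail]
        have := hb x a (by omega)
        omega
      rw [hg _ h1]
      exact ih _ (by rw [List.length_append, List.length_singleton]; omega) h m (by omega)
    · rw [if_neg hh] at h
      rw [if_neg hh, if_neg hh]
      exact h

end SI

open SI

theorem p_sim {O1 O2 : Oracle} {L : Set (List Bool)} (h : IsP O1 L)
    {i : List Bool → List Bool} (hi : Poly i)
    (hG : ∀ b : Polynomial ℕ, ∃ G : List Bool → List Bool, IsFP O2 G ∧
      ∀ x q : List Bool, q.length ≤ b.eval x.length → O2 (i (pairBits (G x) q)) = O1 q) :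
    IsP O2 L := by
  obtain ⟨F, ⟨M, hM⟩, hF⟩ := h
  obtain ⟨b, hb⟩ := M.next_length
  obtain ⟨G, hG1, hG2⟩ := hG b
  have htot : ∀ v, ∃ z, (sim M hi).out O2 v = some z := by
    intro v
    have h1 := sim_total M hi O2 v (M.p.eval v.length) [] (by simp)
    unfold Alg.out
    have h2 : (sim M hi).p.eval v.length = M.p.eval v.length + 1 := by
      change (M.p + 1).eval v.length = _
      simp
    rw [h2]
    exact h1
  choose F' hF' using htot
  have h1 : IsFP O2 F' := ⟨sim M hi, hF'⟩
  have h2 : IsFP O2 (fun x => F' (pairBits (G x) x)) :=
    IsFP.comp h1 (IsFP.pair hG1 (IsFP.of_poly Poly.id))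
  refine ⟨_, h2, fun x => ?_⟩
  rw [hF x]
  have h3 : F' (pairBits (G x) x) = F x := by
    have h4 := hM x
    unfold Alg.out at h4
    have h5 := sim_run M hi hb (hG2 x) _ [] (by simp) h4 ((sim M hi).p.eval
      (pairBits (G x) x).length) (by
        change _ ≤ (M.p + 1).eval _
        have h6 : M.p.eval x.length ≤ M.p.eval (pairBits (G x) x).length := by
          apply eval_mono
          rw [A2.length_pairBits]
          omega
        simp only [Polynomial.eval_add, Polynomial.eval_one]
        omega)
    have h7 := hF' (pairBits (G x) x)
    unfold Alg.out at h7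
    rw [h5] at h7
    exact (Option.some.inj h7).symm
  rw [h3]

end Pool.Agent.H583R2.LH
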