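import Pool.Agent.H583R2.LH.MemL
import Pool.Agent.H583R2.LH.Sim
import Pool.Agent.H628R3.RO.D2

/-! Task ME: the complete set without hidden strings is in the second level of the refined high
hierarchy. (Proof: helper673, from the note of helper583.) -/

namespace Pool.Agent.H583R2.LH

open MeasureTheory Pool.Agent.NPC Pool.Agent.H628R3.RO
open Pool.Agent.H583R2.S2 (chr IsP)
open Pool.Agent.H673R2.OneTT (KA)

theorem isNP_KE (A : Oracle) : IsNP A (KA (ers A)) := by
  refine np_sub (H673R2.OneTT.isNP_KA (ers A)) (isNP_of_isP (isP_ers A)) (isNP_of_isP ?_)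
  have h := isP_compl (isP_ers A)
  have h2 : {q | ers A q = true}ᶜ = {q | ers A q = false} := by
    ext q; simp
  rwa [h2] at h

namespace ME

/-- the questions go to the left part of the join -/
def ldD (D : List Bool → List Bool) (z : List Bool) : List Bool :=
  if (D z).head? = some false then false :: true :: (D z).tail else D z

theorem poly_ldD {D : List Bool → List Bool} (hD : Poly D) : Poly (ldD D) := by
  unfold ldD
  exact Poly.ite (Poly.decide_eq (Poly.head? hD) (NPC.Poly.const _))
    (Poly.cons (NPC.Poly.const _) (Poly.cons (NPC.Poly.const _) (Poly.tail hD))) hD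

theorem isFP_left {A B : Oracle} {F : List Bool → List Bool} (h : IsFP A F) :
    IsFP (join A B) F := by
  obtain ⟨M, hM⟩ := h
  refine ⟨⟨ldD M.D, H622R2.polyTime_of_poly_list (poly_ldD (H622R2.poly_of_polyTime M.poly)),
    M.p⟩, fun x => ?_⟩
  have key : ∀ (n : ℕ) (a : List Bool),
      Alg.run ⟨ldD M.D, H622R2.polyTime_of_poly_list (poly_ldD (H622R2.poly_of_polyTime M.poly)),
        M.p⟩ (join A B) x n a = M.run A x n a := by
    intro n
    induction n with
    | zero => intro a; rfl
    | succ n ih =>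
      intro a
      rw [A2.run_succ, A2.run_succ]
      simp only [ldD]
      by_cases hh : (M.D (pairBits x a)).head? = some false
      · rw [if_pos hh]
        simp only [List.head?_cons, if_true, List.tail_cons]
        rw [if_pos hh, ih]
        rfl
      · rw [if_neg hh, if_neg hh, if_neg hh]
  rw [← hM x]
  exact key _ _

/-- membership depends on short strings only -/
theorem wit_congr (V : Alg) (p : Polynomial ℕ) : ∃ B : Polynomial ℕ, ∀ (A A' : Oracle)
    (x : List Bool) (N : ℕ), x.length ≤ N → (∀ q : List Bool, q.length ≤ B.eval N → A q = A' q) →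
      (Wit V p x A ↔ Wit V p x A') := by
  obtain ⟨qb, hq⟩ := V.out_congr
  refine ⟨qb.comp (Polynomial.C 2 * Polynomial.X + Polynomial.C 1 + p), fun A A' x N hx h => ?_⟩
  have h1 : ∀ y : List Bool, y.length ≤ p.eval x.length →
      V.out A (pairBits x y) = V.out A' (pairBits x y) := by
    intro y hy
    refine hq A A' _ ((Polynomial.C 2 * Polynomial.X + Polynomial.C 1 + p).eval N) ?_ ?_
    · rw [A2.length_pairBits]
      have h3 := eval_mono p hx
      simp only [Polynomial.eval_add, Polynomial.eval_mul, Polynomial.eval_C, Polynomial.eval_X]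
      omega
    · intro z hz
      apply h z
      rw [Polynomial.eval_comp]
      exact hz
  unfold Wit
  constructor
  · rintro ⟨y, hy, h2⟩
    exact ⟨y, hy, by rw [← h1 y hy]; exact h2⟩
  · rintro ⟨y, hy, h2⟩
    exact ⟨y, hy, by rw [h1 y hy]; exact h2⟩

/-- a set in `NP(B)` is decidable in polynomial time with the complete set -/
theorem isP_join {B : Oracle} {L : Set (List Bool)} (h : IsNP B L) {F : List Bool → List Bool}
    (hF : Poly F) : IsP (join B (chr (KA B))) {u | F u ∈ L} := by
  obtain ⟨R, hR, hR2⟩ := H673R2.OneTT.hard_KA B L h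
  have h1 : IsFP (join B (chr (KA B))) (fun u => false :: R (F u)) :=
    IsFP.comp (IsFP.of_poly (Poly.cons (NPC.Poly.const false) Poly.id))
      (IsFP.comp (isFP_left hR) (IsFP.of_poly hF))
  have h2 := isP_pre h1
  have h3 : {x | join B (chr (KA B)) (false :: R (F x)) = true} = {u | F u ∈ L} := by
    ext u
    simp only [Set.mem_setOf_eq, join, chr_eq_true]
    exact (hR2 (F u)).symm
  rwa [h3] at h2

theorem isNP_gE (A : Oracle) :
    IsNP (gE A) {u | join (ers A) (chr (KA (ers A))) u = true} ∧
    IsNP (gE A) {u | join (ers A) (chr (KA (ers A))) u = false} := by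
  refine np_join ?_ ?_ ?_ ?_
  · exact isNP_left (isNP_of_isP (isP_ers A))
  · have h := isP_compl (isP_ers A)
    have h2 : {q | ers A q = true}ᶜ = {q | ers A q = false} := by
      ext q; simp
    rw [h2] at h
    exact isNP_left (isNP_of_isP h)
  · exact isNP_of_isP (isP_right A (chr (KA (ers A))))
  · have h := isP_compl (isP_right A (chr (KA (ers A))))
    have h2 : {q | chr (KA (ers A)) q = true}ᶜ = {q | chr (KA (ers A)) q = false} := by
      ext q; simp
    rw [h2] at h
    exact isNP_of_isP h

end ME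

open ME

theorem highD_KE {A : Oracle} {c : ℕ} (hc : ∀ n : ℕ,
    {y : List Bool | y.length = n ∧ y ∈ Hid A}.ncard ≤ n + c) : KA (ers A) ∈ HighD A 2 := by
  refine ⟨isNP_KE A, ?_⟩
  rintro X ⟨K1, ⟨K2, hK2, hK1⟩, hX⟩
  obtain ⟨V2, p2, hV2⟩ := exists_wit (show IsNP A K2 from hK2)
  obtain ⟨V1, p1, hV1⟩ := exists_wit hK1
  -- the inner family
  set K2' : Set (List Bool) := {u | Wit V2 p2 (unpair u).2 (dec (ers A) (lst (unpair u).1))}
    with hK2'
  have hd := isP_dec (ers A)
  have hd0 : IsP (ers A) {u | dec (ers A) (lst (unpair u).1) (unpair u).2 = false} := by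
    have h := isP_compl hd
    have h2 : {u | dec (ers A) (lst (unpair u).1) (unpair u).2 = true}ᶜ =
        {u | dec (ers A) (lst (unpair u).1) (unpair u).2 = false} := by
      ext q; simp
    rwa [h2] at h
  have hNP2 : IsNP (ers A) K2' :=
    np_fam V2 p2 (O := fun l => dec (ers A) (lst l)) (isNP_of_isP hd) (isNP_of_isP hd0)
  -- the outer family
  set O' : List Bool → Oracle := fun l q => chr K2' (pairBits l q) with hO'
  have hF : Poly (fun u : List Bool => pairBits (unpair u).1 (unpair u).2) :=
    H622R2.poly_pairBits (Poly.fst poly_unpair) (Poly.snd poly_unpair)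
  have hS : IsP (join (ers A) (chr (KA (ers A))))
      {u | (fun u : List Bool => pairBits (unpair u).1 (unpair u).2) u ∈ K2'} :=
    isP_join hNP2 hF
  obtain ⟨hj1, hj0⟩ := isNP_gE A
  have h1 : IsNP (gE A) {u | O' (unpair u).1 (unpair u).2 = true} := by
    have h := np_sub (isNP_of_isP hS) hj1 hj0
    have h2 : {u | (fun u : List Bool => pairBits (unpair u).1 (unpair u).2) u ∈ K2'} =
        {u | O' (unpair u).1 (unpair u).2 = true} := by
      ext u
      simp only [Set.mem_setOf_eq, hO', chr_eq_true]
    rwa [h2] at h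
  have h0 : IsNP (gE A) {u | O' (unpair u).1 (unpair u).2 = false} := by
    have h := np_sub (isNP_of_isP (isP_compl hS)) hj1 hj0
    have h2 : {u | (fun u : List Bool => pairBits (unpair u).1 (unpair u).2) u ∈ K2'}ᶜ =
        {u | O' (unpair u).1 (unpair u).2 = false} := by
      ext u
      have h3 : chr K2' (pairBits (unpair u).1 (unpair u).2) = false ↔
          ¬ pairBits (unpair u).1 (unpair u).2 ∈ K2' := by
        rw [← chr_eq_true (K := K2'), Bool.not_eq_true]
      simp only [Set.mem_compl_iff, Set.mem_setOf_eq, hO', h3]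
    rwa [h2] at h
  set K'' : Set (List Bool) := {u | Wit V1 p1 (unpair u).2 (O' (unpair u).1)} with hK''
  have hNP1 : IsNP (gE A) K'' := np_fam V1 p1 (O := O') h1 h0
  obtain ⟨E, hE, hG⟩ := hid_list hc
  refine ⟨jn K'' E, isNP_jn hNP1 (isNP_left hE), ?_⟩
  obtain ⟨B1, hB1⟩ := wit_congr V1 p1
  obtain ⟨B2, hB2⟩ := wit_congr V2 p2
  refine p_sim hX (i := fun v => true :: v) (Poly.cons (NPC.Poly.const true) Poly.id) fun b => ?_
  obtain ⟨G, hG1, hG2⟩ := hG K'' (B2.comp (B1.comp b))
  refine ⟨G, hG1, fun x q hq => ?_⟩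
  have hdec : ∀ q' : List Bool, q'.length ≤ (B2.comp (B1.comp b)).eval x.length →
      dec (ers A) (lst (G x)) q' = A q' := fun q' hq' => dec_ers (hG2 x) hq'
  have h5 : ∀ q' : List Bool, q'.length ≤ B1.eval (b.eval x.length) →
      O' (G x) q' = chr K2 q' := by
    intro q' hq'
    have h6 : pairBits (G x) q' ∈ K2' ↔ q' ∈ K2 := by
      rw [hK2', Set.mem_setOf_eq, unpair_pairBits, hV2 q']
      refine hB2 _ _ q' (B1.eval (b.eval x.length)) hq' fun z hz => hdec z ?_
      rw [Polynomial.eval_comp, Polynomial.eval_comp]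
      exact hz
    simp only [hO']
    rw [Bool.eq_iff_iff, chr_eq_true, chr_eq_true]
    exact h6
  have h7 : pairBits (G x) q ∈ K'' ↔ q ∈ K1 := by
    rw [hK'', Set.mem_setOf_eq, unpair_pairBits, hV1 q]
    exact hB1 _ _ q (b.eval x.length) hq h5
  rw [chr_jn]
  change chr K'' (pairBits (G x) q) = chr K1 q
  rw [Bool.eq_iff_iff, chr_eq_true, chr_eq_true]
  exact h7

end Pool.Agent.H583R2.LH
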