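import Pool.Agent.H583R2.LH.CorN
import Pool.Agent.H583R2.LH.Few
import Pool.Agent.H583R2.LH.MemE
import Pool.Agent.H583R2.LH.IncL

/-! The high hierarchy relative to a random oracle: `H_1` and the next refined level. -/

namespace Pool.Agent.H583R2.LH

open MeasureTheory Pool.Agent.NPC Pool.Agent.H628R3.RO
open Pool.Agent.H583R2.S2 (chr IsP)
open Pool.Agent.H673R2.OneTT (KA)

/-- With probability one, some set is in the second level of the refined high hierarchy, but not in
the first level of the high hierarchy. -/
theorem high_main : ∀ᵐ R ∂randomOracle, High R 1 ⊂ HighD R 2 := by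
  filter_upwards [few_hid, not_coNP] with A h3 h4
  obtain ⟨c, hc⟩ := h3
  refine ⟨high1_sub_highD2 A, fun h => h4 ?_⟩
  exact (h (highD_KE hc)).2 ⟨TT A, isNP_TT A, isNP_of_isP (isP_compl (isP_self _))⟩

end Pool.Agent.H583R2.LH
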