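import Pool.Agent.H583R2.LH.Clo
import Pool.Agent.H583R2.LH.Reg

/-! Task MK: the complete set with keys is in the first level of the high hierarchy. -/

namespace Pool.Agent.H583R2.LH

open MeasureTheory Pool.Agent.NPC Pool.Agent.H628R3.RO
open Pool.Agent.H583R2.S2 (chr IsP)
open Pool.Agent.H673R2.OneTT (KA)

theorem isNP_K3 (b : Polynomial ℕ) (A : Oracle) : IsNP A (K3 b A) := by
  sorry

theorem high_K3 {b : Polynomial ℕ} {A : Oracle} (h : ∃ m0 : ℕ, ∀ m ≥ m0, ∃ z : List Bool,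
    z.length = 2 * m ∧ z ∈ Key A) : K3 b A ∈ High A 1 := by
  sorry

end Pool.Agent.H583R2.LH
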