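import Pool.Agent.H583R2.LH.Clo
import Pool.Agent.H583R2.LH.Sim
import Pool.Agent.H583R2.LH.Reg
import Pool.Agent.H583R2.LH.MemL

/-! Task MT: the lengths of hidden strings are in the second level of the refined low hierarchy. -/

namespace Pool.Agent.H583R2.LH

open MeasureTheory Pool.Agent.NPC Pool.Agent.H628R3.RO
open Pool.Agent.H583R2.S2 (chr IsP)
open Pool.Agent.H673R2.OneTT (KA)

theorem lowD_TT (A : Oracle) : TT A ∈ LowD A 2 := by
  sorry

end Pool.Agent.H583R2.LH
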