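import Pool.Agent.H583R2.LH.Reg
import Pool.Agent.H628R3.RO.M2

/-! Task PD: deleting the first bits of a region does not change the distribution. -/

namespace Pool.Agent.H583R2.LH

open MeasureTheory Pool.Agent.NPC Pool.Agent.H628R3.RO
open Pool.Agent.H583R2.S2 (chr IsP)
open Pool.Agent.H673R2.OneTT (KA)

namespace PD

/-- the distribution of a random oracle is invariant under injective reindexing -/
theorem map_reindex (φ : List Bool → List Bool) (hφ : Function.Injective φ) :
    randomOracle.map (fun A : Oracle => fun q => A (φ q)) = randomOracle := by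
  classical
  have hm : Measurable (fun A : Oracle => fun q => A (φ q)) :=
    measurable_pi_lambda _ fun q => measurable_pi_apply _
  refine Measure.eq_infinitePi _ fun s t ht => ?_
  have hpi : MeasurableSet (Set.pi (s : Set (List Bool)) t) :=
    MeasurableSet.pi s.countable_toSet fun i _ => ht i
  rw [Measure.map_apply hm hpi]
  set t' : List Bool → Set Bool := Function.extend φ t (fun _ => Set.univ) with ht'
  have hext : ∀ q, t' (φ q) = t q := fun q => hφ.extend_apply t (fun _ => Set.univ) q
  have hpre : (fun A : Oracle => fun q => A (φ q)) ⁻¹' (Set.pi (s : Set (List Bool)) t) =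
      Set.pi ((s.image φ : Finset (List Bool)) : Set (List Bool)) t' := by
    ext A
    simp only [Set.mem_preimage, Set.mem_pi, Finset.mem_coe, Finset.mem_image]
    constructor
    · rintro h _ ⟨q, hq, rfl⟩
      rw [hext]
      exact h q hq
    · intro h q hq
      have := h (φ q) ⟨q, hq, rfl⟩
      rwa [hext] at this
  rw [hpre]
  unfold randomOracle
  have h2 := Measure.infinitePi_pi (fun _ : List Bool => coin) (s := s.image φ) (t := t')
    (fun i _ => MeasurableSet.of_discrete)
  rw [h2, Finset.prod_image fun a _ b _ h => hφ h]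
  simp only [hext]

/-- the reindexing map of the deletion -/
def phi (y q : List Bool) : List Bool :=
  match prs q with
  | none => q
  | some (y', i) => if y' = y then yp y (i + y.length) else q

theorem del_eq (y : List Bool) (A : Oracle) : del y A = fun q => A (phi y q) := by
  funext q
  unfold del phi
  rcases h : prs q with _ | ⟨y', i⟩
  · rfl
  · simp only
    split_ifs <;> rfl

theorem phi_cases (y q : List Bool) :
    (∃ i, q = yp y i ∧ phi y q = yp y (i + y.length)) ∨
      ((∀ i, q ≠ yp y i) ∧ phi y q = q) := by
  unfold phi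
  rcases h : prs q with _ | ⟨y', i⟩
  · right
    refine ⟨fun i hi => ?_, rfl⟩
    rw [hi, prs_yp] at h
    exact absurd h (by simp)
  · have hq := prs_some h
    by_cases hy : y' = y
    · left
      refine ⟨i, ?_, ?_⟩
      · rw [hq, hy]
      · simp [hy]
    · right
      refine ⟨fun j hj => ?_, by simp [hy]⟩
      rw [hq] at hj
      exact hy (yp_inj hj).1

theorem phi_inj (y : List Bool) : Function.Injective (phi y) := by
  intro q q' h
  rcases phi_cases y q with ⟨i, hq, hp⟩ | ⟨hq, hp⟩ <;>
    rcases phi_cases y q' with ⟨i', hq', hp'⟩ | ⟨hq', hp'⟩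
  · rw [hp, hp'] at h
    have := (yp_inj h).2
    rw [hq, hq']
    congr 1
    omega
  · rw [hp, hp'] at h
    exact absurd h.symm (hq' _)
  · rw [hp, hp'] at h
    exact absurd h (hq _)
  · rw [hp, hp'] at h
    exact h

theorem phi_ne (y q : List Bool) {i : ℕ} (hi : i < y.length) : phi y q ≠ yp y i := by
  rcases phi_cases y q with ⟨j, hq, hp⟩ | ⟨hq, hp⟩
  · rw [hp]
    intro h
    have := (yp_inj h).2
    omega
  · rw [hp]
    exact hq i

end PD

open PD

theorem prob_del (y : List Bool) {E : Set Oracle} (hE : FLoc E) :
    prob ({A | y ∈ Hid A} ∩ {A | del y A ∈ E}) = (1 / 2) ^ y.length * prob E := by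
  classical
  obtain ⟨N, hN⟩ := hE
  have hfin : {q : List Bool | q.length < N}.Finite := List.finite_length_lt Bool N
  have hEm : MeasurableSet E := measurableSet_of_loc hfin hN
  have hm : Measurable (fun A : Oracle => fun q => A (phi y q)) :=
    measurable_pi_lambda _ fun q => measurable_pi_apply _
  have hS : {A : Oracle | del y A ∈ E} = (fun A : Oracle => fun q => A (phi y q)) ⁻¹' E := by
    ext A
    rw [Set.mem_preimage, ← del_eq]
    rfl
  have hSm : MeasurableSet {A : Oracle | del y A ∈ E} := by
    rw [hS]
    exact hm hEm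
  set J : Finset (List Bool) := (Finset.range y.length).image (yp y) with hJ
  have hcard : J.card = y.length := by
    rw [hJ, Finset.card_image_of_injective _ (fun i j h => (yp_inj h).2), Finset.card_range]
  have h1 := prob_plant hSm J
  have h2 : {A : Oracle | ∀ x ∈ J, A x = true} = {A | y ∈ Hid A} := by
    ext A
    simp only [hJ, Finset.mem_image, Finset.mem_range, Set.mem_ofPred_eq, Hid]
    constructor
    · intro h i hi
      exact h _ ⟨i, hi, rfl⟩
    · rintro h _ ⟨i, hi, rfl⟩
      exact h i hi
  have h3 : plant J ⁻¹' {A : Oracle | del y A ∈ E} = {A : Oracle | del y A ∈ E} := by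
    ext A
    simp only [Set.mem_preimage, Set.mem_ofPred_eq]
    have : del y (plant J A) = del y A := by
      rw [del_eq, del_eq]
      funext q
      unfold plant
      rw [if_neg]
      intro hq
      rw [hJ, Finset.mem_image] at hq
      obtain ⟨i, hi, hi'⟩ := hq
      exact phi_ne y q (Finset.mem_range.1 hi) hi'.symm
    rw [this]
  rw [h2, h3, hcard] at h1
  rw [h1]
  congr 1
  unfold prob Measure.real
  conv_rhs => rw [← map_reindex (phi y) (phi_inj y)]
  rw [Measure.map_apply hm hEm, hS]

end Pool.Agent.H583R2.LH
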